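import Mathlib

/-! Random rows: product formulas and the three row sums. -/

set_option autoImplicit false
set_option linter.unusedSectionVars false

namespace Pool.Agent.R70.BC

open Finset

variable {n : ℕ} {Q : Type} [Fintype Q] [DecidableEq Q]

lemma sum_rows (h : Fin n → Q → ℝ) :
    ∑ x : Fin n → Q, ∏ v, h v (x v) = ∏ v, ∑ c, h v c :=
  (Fintype.prod_sum h).symm

lemma markov {Ω : Type} [Fintype Ω] (E : Ω → Prop) [DecidablePred E] (Φ : Ω → ℝ)
    (h0 : ∀ f, 0 ≤ Φ f) (c : ℝ) (hc : 0 < c) (h : ∀ f, E f → c ≤ Φ f) :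
    ((univ.filter E).card : ℝ) ≤ (∑ f, Φ f) / c := by
  rw [le_div_iff₀ hc]
  calc ((univ.filter E).card : ℝ) * c = ∑ f ∈ univ.filter E, c := by
        rw [sum_const, nsmul_eq_mul]
    _ ≤ ∑ f ∈ univ.filter E, Φ f := sum_le_sum fun f hf => h f (mem_filter.1 hf).2
    _ ≤ ∑ f, Φ f := sum_le_sum_of_subset_of_nonneg (filter_subset _ _) fun f _ _ => h0 f

lemma prod_ite_card (K : Finset (Fin n)) (r : ℝ) :
    ∏ v : Fin n, (if v ∈ K then r else 1) = r ^ K.card := by
  rw [Finset.prod_ite_mem]
  simp

/-- indicator of no vertex of `K` has colour `a` -/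
def none (K : Finset (Fin n)) (a : Q) (x : Fin n → Q) : ℝ :=
  ∏ v, (if v ∈ K ∧ x v = a then 0 else 1)

lemma none_eq (K : Finset (Fin n)) (a : Q) (x : Fin n → Q) :
    none K a x = if ∃ v ∈ K, x v = a then 0 else 1 := by
  unfold none
  split_ifs with h
  · obtain ⟨v, hv, hx⟩ := h
    exact Finset.prod_eq_zero (mem_univ v) (by simp [hv, hx])
  · push Not at h
    apply Finset.prod_eq_one
    intro v _
    rw [if_neg]
    rintro ⟨h1, h2⟩
    exact h v h1 h2

lemma sum_one (P : Prop) [Decidable P] (a : Q) :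
    ∑ c : Q, (if P ∧ c = a then (0:ℝ) else 1) = if P then (Fintype.card Q : ℝ) - 1
      else Fintype.card Q := by
  by_cases hP : P
  · have : ∀ c : Q, (if P ∧ c = a then (0:ℝ) else 1) = 1 - (if c = a then 1 else 0) := by
      intro c; by_cases hc : c = a <;> simp [hP, hc]
    simp only [this, sum_sub_distrib, Finset.sum_ite_eq', mem_univ, if_true, if_pos hP]
    simp
  · simp [hP]

lemma sum_two (P P' : Prop) [Decidable P] [Decidable P'] (hPP : ¬ (P ∧ P')) (a b : Q) :
    ∑ c : Q, ((if P ∧ c = a then (0:ℝ) else 1) * (if P' ∧ c = b then (0:ℝ) else 1)) =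
      if P ∨ P' then (Fintype.card Q : ℝ) - 1 else Fintype.card Q := by
  by_cases hP : P
  · have hP' : ¬ P' := fun h => hPP ⟨hP, h⟩
    have := sum_one P a
    simp only [hP, hP', true_and, false_and, if_false, mul_one, true_or, if_true] at this ⊢
    exact this
  · by_cases hP' : P'
    · have := sum_one P' b
      simp only [hP, hP', true_and, false_and, if_false, one_mul, or_true, if_true] at this ⊢
      exact this
    · simp [hP, hP']

lemma sum_none (hq : (0:ℝ) < Fintype.card Q) (K : Finset (Fin n)) (a : Q) :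
    ∑ x : Fin n → Q, none K a x =
      (Fintype.card Q : ℝ) ^ n * (1 - 1 / (Fintype.card Q : ℝ)) ^ K.card := by
  unfold none
  rw [sum_rows (fun v c => if v ∈ K ∧ c = a then (0:ℝ) else 1)]
  have : ∀ v : Fin n, ∑ c : Q, (if v ∈ K ∧ c = a then (0:ℝ) else 1) =
      (Fintype.card Q : ℝ) * (if v ∈ K then (1 - 1 / (Fintype.card Q : ℝ)) else 1) := by
    intro v
    rw [sum_one]
    split_ifs
    · field_simp
    · ring
  simp only [this]
  rw [Finset.prod_mul_distrib, prod_ite_card]
  simp

lemma sum_none_mul (hq : (0:ℝ) < Fintype.card Q) (K L : Finset (Fin n)) (hKL : Disjoint K L)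
    (a b : Q) :
    ∑ x : Fin n → Q, none K a x * none L b x =
      (Fintype.card Q : ℝ) ^ n * ((1 - 1 / (Fintype.card Q : ℝ)) ^ K.card *
        (1 - 1 / (Fintype.card Q : ℝ)) ^ L.card) := by
  unfold none
  simp only [← Finset.prod_mul_distrib]
  rw [sum_rows (fun v c => (if v ∈ K ∧ c = a then (0:ℝ) else 1) *
    (if v ∈ L ∧ c = b then (0:ℝ) else 1))]
  have : ∀ v : Fin n, ∑ c : Q, (if v ∈ K ∧ c = a then (0:ℝ) else 1) *
      (if v ∈ L ∧ c = b then (0:ℝ) else 1) =
      (Fintype.card Q : ℝ) * ((if v ∈ K then (1 - 1 / (Fintype.card Q : ℝ)) else 1) *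
        (if v ∈ L then (1 - 1 / (Fintype.card Q : ℝ)) else 1)) := by
    intro v
    have hv : ¬ (v ∈ K ∧ v ∈ L) := fun h => (Finset.disjoint_left.1 hKL) h.1 h.2
    rw [sum_two _ _ hv]
    by_cases h1 : v ∈ K
    · have h2 : v ∉ L := fun h => hv ⟨h1, h⟩
      simp only [h1, h2, true_or, if_true, if_false]
      field_simp
    · by_cases h2 : v ∈ L
      · simp only [h1, h2, or_true, if_true, if_false]
        field_simp
      · simp [h1, h2]
  simp only [this]
  rw [Finset.prod_mul_distrib, Finset.prod_mul_distrib, prod_ite_card, prod_ite_card]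
  simp

lemma pow_le_aux {q : ℝ} (hq : 1 ≤ q) {m : ℕ} (hm : (m:ℝ) ≤ q) :
    (1 - 1 / q) ^ m ≤ 1 - m / (2 * q) := by
  have hq0 : 0 < q := by linarith
  have h1 : (1 - 1 / q) ^ m * (1 + m / q) ≤ 1 := by
    have hb : 1 + (m:ℝ) * (1 / q) ≤ (1 + 1 / q) ^ m :=
      one_add_mul_le_pow (by have : 0 ≤ 1 / q := by positivity
                             linarith) m
    have h0 : 0 ≤ (1 - 1 / q) ^ m := by
      apply pow_nonneg
      rw [sub_nonneg, div_le_one hq0]; exact hq
    calc (1 - 1 / q) ^ m * (1 + m / q) = (1 - 1 / q) ^ m * (1 + (m:ℝ) * (1 / q)) := by ring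
      _ ≤ (1 - 1 / q) ^ m * (1 + 1 / q) ^ m := by gcongr
      _ = (1 - (1 / q) ^ 2) ^ m := by rw [← mul_pow]; ring
      _ ≤ 1 := by
        apply pow_le_one₀
        · rw [sub_nonneg]
          apply pow_le_one₀ (by positivity)
          rw [div_le_one hq0]; exact hq
        · have : 0 ≤ (1 / q) ^ 2 := by positivity
          linarith
  have hmq : 0 ≤ (m:ℝ) / q := by positivity
  have hmq1 : (m:ℝ) / q ≤ 1 := by rw [div_le_one hq0]; exact hm
  have h2 : (1 - 1 / q) ^ m ≤ 1 / (1 + m / q) := by
    rw [le_div_iff₀ (by linarith)]; exact h1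
  refine h2.trans ?_
  rw [div_le_iff₀ (by linarith)]
  have h3 : (m:ℝ) / (2 * q) = (m / q) / 2 := by field_simp
  rw [h3]
  nlinarith

/-- row sum for not both: `K₁` has no vertex of colour `a`, or `K₂` none of colour `b` -/
lemma row_miss (hq : (1:ℝ) ≤ Fintype.card Q) (K L : Finset (Fin n)) (hKL : Disjoint K L) {m : ℕ}
    (hK : K.card = m) (hL : L.card = m) (hm : (m:ℝ) ≤ Fintype.card Q) (a b : Q) :
    ∑ x : Fin n → Q, (if (∃ u ∈ K, x u = a) ∧ (∃ v ∈ L, x v = b) then (0:ℝ) else 1) ≤
      (Fintype.card Q : ℝ) ^ n * (1 - (m:ℝ) ^ 2 / (4 * (Fintype.card Q : ℝ) ^ 2)) := by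
  set q : ℝ := (Fintype.card Q : ℝ) with hqdef
  have hq0 : 0 < q := by linarith
  have h1 : ∀ x : Fin n → Q, (if (∃ u ∈ K, x u = a) ∧ (∃ v ∈ L, x v = b) then (0:ℝ) else 1) =
      none K a x + none L b x - none K a x * none L b x := by
    intro x
    rw [none_eq, none_eq]
    by_cases h1 : ∃ u ∈ K, x u = a <;> by_cases h2 : ∃ v ∈ L, x v = b <;> simp [h1, h2]
  simp only [h1]
  rw [sum_sub_distrib, sum_add_distrib, sum_none (by rw [← hqdef]; exact hq0),
    sum_none (by rw [← hqdef]; exact hq0), sum_none_mul (by rw [← hqdef]; exact hq0) K L hKL, hK, hL,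
    ← hqdef]
  have h2 := pow_le_aux hq hm
  have h3 : 0 ≤ (1 - 1 / q) ^ m := by
    apply pow_nonneg
    rw [sub_nonneg, div_le_one hq0]; exact hq
  set α := (1 - 1 / q) ^ m
  have h4 : (m:ℝ) / (2 * q) ≤ 1 - α := by linarith
  have h5 : 0 ≤ (m:ℝ) / (2 * q) := by positivity
  have h6 : ((m:ℝ) / (2 * q)) ^ 2 ≤ (1 - α) ^ 2 := by gcongr
  have h7 : ((m:ℝ) / (2 * q)) ^ 2 = (m:ℝ) ^ 2 / (4 * q ^ 2) := by
    rw [div_pow]; congr 1; ring
  rw [h7] at h6
  have h8 : q ^ n * α + q ^ n * α - q ^ n * (α * α) = q ^ n * (1 - (1 - α) ^ 2) := by ring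
  rw [h8]
  have h9 : 0 < q ^ n := by positivity
  gcongr

/-- weight function of the second event -/
lemma row_big (hq : (1:ℝ) ≤ Fintype.card Q) (a b : Q) (K : Finset (Fin n)) (w : ℝ) (hw : 1 ≤ w)
    (hk : 2 * w * K.card / Fintype.card Q ≤ 1 / 2) :
    ∑ x : Fin n → Q, (if 3 ≤ (K.filter (fun v => x v = a ∨ x v = b)).card then
        w ^ (K.filter (fun v => x v = a ∨ x v = b)).card else (1:ℝ)) ≤
      (Fintype.card Q : ℝ) ^ n * (1 + 16 * (K.card:ℝ) ^ 3 * w ^ 3 / (Fintype.card Q : ℝ) ^ 3) := by
  set q : ℝ := (Fintype.card Q : ℝ) with hqdef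
  have hq0 : 0 < q := by linarith
  have hw0 : 0 < w := by linarith
  set h : Finset (Fin n) → Fin n → Q → ℝ := fun S v c =>
    (if v ∈ S then (if c = a ∨ c = b then w else 0)
      else if v ∈ K then (if c = a ∨ c = b then w else 1) else 1) with hh
  have hnn : ∀ S v c, 0 ≤ h S v c := by
    intro S v c; simp only [hh]; split_ifs <;> linarith
  -- pointwise bound
  have h1 : ∀ x : Fin n → Q, (if 3 ≤ (K.filter (fun v => x v = a ∨ x v = b)).card then
        w ^ (K.filter (fun v => x v = a ∨ x v = b)).card else (1:ℝ)) ≤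
      1 + ∑ S ∈ powersetCard 3 K, ∏ v, h S v (x v) := by
    intro x
    have hsum : 0 ≤ ∑ S ∈ powersetCard 3 K, ∏ v, h S v (x v) :=
      sum_nonneg fun S _ => prod_nonneg fun v _ => hnn S v _
    split_ifs with hx
    · obtain ⟨S, hS1, hS2⟩ := Finset.exists_subset_card_eq hx
      have hSK : S ∈ powersetCard 3 K :=
        mem_powersetCard.2 ⟨hS1.trans (filter_subset _ _), hS2⟩
      have h2 : ∏ v, h S v (x v) = w ^ (K.filter (fun v => x v = a ∨ x v = b)).card := by
        rw [← prod_ite_card]
        apply Finset.prod_congr rfl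
        intro v _
        simp only [hh, mem_filter]
        by_cases hv : v ∈ S
        · have := mem_filter.1 (hS1 hv)
          rw [if_pos hv, if_pos this.2, if_pos this]
        · by_cases hvK : v ∈ K
          · by_cases hc : x v = a ∨ x v = b <;> simp [hv, hvK, hc]
          · simp [hv, hvK]
      have h3 := Finset.single_le_sum (f := fun S => ∏ v, h S v (x v))
        (fun S _ => prod_nonneg fun v _ => hnn S v _) hSK
      simp only [h2] at h3
      linarith
    · linarith
  -- row sums
  have h2 : ∀ S ∈ powersetCard 3 K, ∑ x : Fin n → Q, ∏ v, h S v (x v) ≤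
      q ^ n * ((2 * w / q) ^ 3 * 2) := by
    intro S hS
    obtain ⟨hSK, hS3⟩ := mem_powersetCard.1 hS
    rw [sum_rows (fun v c => h S v c)]
    have h3 : ∀ v : Fin n, ∑ c, h S v c ≤ q * ((if v ∈ S then (2 * w / q) else 1) *
        (if v ∈ K then (1 + 2 * w / q) else 1)) := by
      intro v
      have hab2 : ∑ c : Q, (if c = a ∨ c = b then w else (0:ℝ)) ≤ 2 * w := by
        calc ∑ c : Q, (if c = a ∨ c = b then w else (0:ℝ)) ≤
            ∑ c : Q, ((if c = a then w else 0) + (if c = b then w else 0)) := by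
              apply sum_le_sum
              intro c _
              split_ifs with g1 g2 g3 g4 <;> first | linarith | (exfalso; tauto)
          _ = 2 * w := by
              rw [sum_add_distrib]; simp; ring
      have hab3 : ∑ c : Q, (if c = a ∨ c = b then w else (1:ℝ)) ≤ q + 2 * w := by
        calc ∑ c : Q, (if c = a ∨ c = b then w else (1:ℝ)) ≤
            ∑ c : Q, (1 + (if c = a ∨ c = b then w else 0)) := by
              apply sum_le_sum
              intro c _
              by_cases h1 : c = a ∨ c = b <;> simp [h1]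
          _ ≤ q + 2 * w := by
              rw [sum_add_distrib]
              simp only [sum_const, card_univ, nsmul_eq_mul, mul_one]
              rw [← hqdef]; linarith
      by_cases hv : v ∈ S
      · have hvK := hSK hv
        simp only [hh, hv, hvK, if_true]
        refine hab2.trans ?_
        have : q * (2 * w / q * (1 + 2 * w / q)) = 2 * w * (1 + 2 * w / q) := by
          field_simp
        rw [this]
        have h4 : 0 ≤ 2 * w / q := by positivity
        nlinarith
      · by_cases hvK : v ∈ K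
        · simp only [hh, hv, hvK, if_true, if_false, one_mul]
          refine hab3.trans (le_of_eq ?_)
          field_simp
        · simp only [hh, hv, hvK, if_false, sum_const, card_univ, nsmul_eq_mul, mul_one]
          rw [← hqdef]
    calc ∏ v, ∑ c, h S v c ≤ ∏ v : Fin n, (q * ((if v ∈ S then (2 * w / q) else 1) *
        (if v ∈ K then (1 + 2 * w / q) else 1))) :=
          prod_le_prod (fun v _ => sum_nonneg fun c _ => hnn S v c) fun v _ => h3 v
      _ = q ^ n * ((2 * w / q) ^ 3 * (1 + 2 * w / q) ^ K.card) := by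
          rw [Finset.prod_mul_distrib, Finset.prod_mul_distrib, prod_ite_card, prod_ite_card, hS3]
          simp
      _ ≤ q ^ n * ((2 * w / q) ^ 3 * 2) := by
          have h4 : (1 + 2 * w / q) ^ K.card ≤ 2 := by
            calc (1 + 2 * w / q) ^ K.card ≤ (Real.exp (2 * w / q)) ^ K.card := by
                  gcongr
                  have := Real.add_one_le_exp (2 * w / q)
                  linarith
              _ = Real.exp (K.card * (2 * w / q)) := by rw [Real.exp_nat_mul]
              _ ≤ Real.exp (1 / 2) := by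
                  apply Real.exp_le_exp.2
                  calc (K.card:ℝ) * (2 * w / q) = 2 * w * K.card / q := by ring
                    _ ≤ 1 / 2 := hk
              _ ≤ 2 := by
                  have h5 : Real.exp (1 / 2) ^ 2 = Real.exp 1 := by
                    rw [← Real.exp_nat_mul]; norm_num
                  have h6 := Real.exp_one_lt_d9
                  have h7 := Real.exp_pos (1 / 2)
                  nlinarith
          gcongr
  calc _ ≤ ∑ x : Fin n → Q, (1 + ∑ S ∈ powersetCard 3 K, ∏ v, h S v (x v)) :=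
        sum_le_sum fun x _ => h1 x
    _ = q ^ n + ∑ S ∈ powersetCard 3 K, ∑ x : Fin n → Q, ∏ v, h S v (x v) := by
        rw [sum_add_distrib, Finset.sum_comm]
        congr 1
        simp [hqdef]
    _ ≤ q ^ n + ∑ S ∈ powersetCard 3 K, q ^ n * ((2 * w / q) ^ 3 * 2) := by
        gcongr with S hS
        exact h2 S hS
    _ = q ^ n * (1 + (K.card.choose 3 : ℝ) * ((2 * w / q) ^ 3 * 2)) := by
        rw [sum_const, card_powersetCard, nsmul_eq_mul]; ring
    _ ≤ q ^ n * (1 + (K.card : ℝ) ^ 3 * ((2 * w / q) ^ 3 * 2)) := by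
        have : (K.card.choose 3 : ℝ) ≤ (K.card : ℝ) ^ 3 := by
          exact_mod_cast Nat.choose_le_pow K.card 3
        gcongr
    _ = q ^ n * (1 + 16 * (K.card:ℝ) ^ 3 * w ^ 3 / q ^ 3) := by
        rw [div_pow]; ring

/-- weight function of the third event -/
lemma row_exact (hq : (1:ℝ) ≤ Fintype.card Q) (a b : Q) (K : Finset (Fin n)) :
    ∑ x : Fin n → Q, (if (K.filter (fun v => x v = a)).card = 1 ∧
        (K.filter (fun v => x v = b)).card = 1 ∧ a ≠ b then (4:ℝ) else 1) ≤
      (Fintype.card Q : ℝ) ^ n * (1 + 3 * ((K.card:ℝ) * (K.card - 1)) / (Fintype.card Q : ℝ) ^ 2) := by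
  set q : ℝ := (Fintype.card Q : ℝ) with hqdef
  have hq0 : 0 < q := by linarith
  set h : Fin n × Fin n → Fin n → Q → ℝ := fun p v c =>
    (if v = p.1 then (if c = a then 1 else 0) else 1) *
      (if v = p.2 then (if c = b then 1 else 0) else 1) with hh
  have hnn : ∀ p v c, 0 ≤ h p v c := by
    intro p v c; simp only [hh]
    have e1 : (0:ℝ) ≤ (if v = p.1 then (if c = a then 1 else 0) else 1) := by
      split_ifs <;> norm_num
    have e2 : (0:ℝ) ≤ (if v = p.2 then (if c = b then 1 else 0) else 1) := by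
      split_ifs <;> norm_num
    exact mul_nonneg e1 e2
  have h1 : ∀ x : Fin n → Q, (if (K.filter (fun v => x v = a)).card = 1 ∧
        (K.filter (fun v => x v = b)).card = 1 ∧ a ≠ b then (4:ℝ) else 1) ≤
      1 + ∑ p ∈ K.offDiag, 3 * ∏ v, h p v (x v) := by
    intro x
    have hsum : 0 ≤ ∑ p ∈ K.offDiag, 3 * ∏ v, h p v (x v) :=
      sum_nonneg fun S _ => mul_nonneg (by norm_num) (prod_nonneg fun v _ => hnn S v _)
    split_ifs with hx
    · obtain ⟨hx1, hx2, hab⟩ := hx
      obtain ⟨u, hu⟩ := card_eq_one.1 hx1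
      obtain ⟨v, hv⟩ := card_eq_one.1 hx2
      have hu' : u ∈ K ∧ x u = a := by
        have : u ∈ K.filter (fun v => x v = a) := by rw [hu]; simp
        exact mem_filter.1 this
      have hv' : v ∈ K ∧ x v = b := by
        have : v ∈ K.filter (fun v => x v = b) := by rw [hv]; simp
        exact mem_filter.1 this
      have huv : u ≠ v := by
        rintro rfl
        exact hab (hu'.2.symm.trans hv'.2)
      have hp : (u, v) ∈ K.offDiag := mem_offDiag.2 ⟨hu'.1, hv'.1, huv⟩
      have h3 := Finset.single_le_sum (f := fun p => 3 * ∏ v, h p v (x v))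
        (fun p _ => mul_nonneg (by norm_num) (prod_nonneg fun v _ => hnn p v _)) hp
      have h4 : ∏ w, h (u, v) w (x w) = 1 := by
        apply Finset.prod_eq_one
        intro w _
        simp only [hh]
        have e1 : (if w = u then (if x w = a then (1:ℝ) else 0) else 1) = 1 := by
          split_ifs with g1 g2
          · rfl
          · subst g1; exact absurd hu'.2 g2
          · rfl
        have e2 : (if w = v then (if x w = b then (1:ℝ) else 0) else 1) = 1 := by
          split_ifs with g1 g2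
          · rfl
          · subst g1; exact absurd hv'.2 g2
          · rfl
        rw [e1, e2]; norm_num
      simp only [h4] at h3
      linarith
    · linarith
  have h2 : ∀ p ∈ K.offDiag, ∑ x : Fin n → Q, 3 * ∏ v, h p v (x v) = q ^ n * (3 / q ^ 2) := by
    intro p hp
    obtain ⟨hp1, hp2, hp3⟩ := mem_offDiag.1 hp
    rw [← mul_sum, sum_rows (fun v c => h p v c)]
    have h3 : ∀ v : Fin n, ∑ c, h p v c = q * ((if v ∈ ({p.1} : Finset (Fin n)) then (1 / q) else 1) *
        (if v ∈ ({p.2} : Finset (Fin n)) then (1 / q) else 1)) := by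
      intro v
      simp only [mem_singleton]
      by_cases e1 : v = p.1
      · have e2 : ¬ v = p.2 := fun e => hp3 (e1.symm.trans e)
        simp only [hh, if_pos e1, if_neg e2, mul_one]
        simp only [Finset.sum_ite_eq', mem_univ, if_true]
        field_simp
      · by_cases e2 : v = p.2
        · simp only [hh, if_pos e2, if_neg e1, one_mul]
          simp only [Finset.sum_ite_eq', mem_univ, if_true]
          field_simp
        · simp only [hh, if_neg e2, if_neg e1, one_mul]
          simp [hqdef]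
    simp only [h3]
    rw [Finset.prod_mul_distrib, Finset.prod_mul_distrib, prod_ite_card, prod_ite_card]
    simp only [card_singleton, pow_one, prod_const, card_univ, Fintype.card_fin]
    field_simp
  calc _ ≤ ∑ x : Fin n → Q, (1 + ∑ p ∈ K.offDiag, 3 * ∏ v, h p v (x v)) :=
        sum_le_sum fun x _ => h1 x
    _ = q ^ n + ∑ p ∈ K.offDiag, ∑ x : Fin n → Q, 3 * ∏ v, h p v (x v) := by
        rw [sum_add_distrib, Finset.sum_comm]
        congr 1
        simp [hqdef]
    _ = q ^ n + ∑ p ∈ K.offDiag, q ^ n * (3 / q ^ 2) := by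
        rw [sum_congr rfl h2]
    _ = q ^ n * (1 + 3 * ((K.card:ℝ) * (K.card - 1)) / q ^ 2) := by
        rw [sum_const, offDiag_card, nsmul_eq_mul]
        have : ((K.card * K.card - K.card : ℕ) : ℝ) = (K.card:ℝ) * (K.card - 1) := by
          rw [Nat.cast_sub (Nat.le_mul_self _)]; push_cast; ring
        rw [this]; ring

end Pool.Agent.R70.BC
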