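import Mathlib

/-! Ramsey colourings whose red edges are covered by few complete bipartite graphs: the
deterministic upper bound. -/

set_option autoImplicit false

namespace Pool.Agent.R70.BC

open Finset

/-- The edges of `G` are the union of the edges of `t` complete bipartite graphs. -/
def Covered {V : Type*} (G : SimpleGraph V) (t : ℕ) : Prop :=
  ∃ A B : Fin t → Set V, (∀ i, ∀ a ∈ A i, ∀ b ∈ B i, G.Adj a b) ∧
    ∀ u v, G.Adj u v → ∃ i, (u ∈ A i ∧ v ∈ B i) ∨ (v ∈ A i ∧ u ∈ B i)

/-- all cliques inside `S` have at most `x` vertices -/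
def CB {V : Type*} (G : SimpleGraph V) (S : Finset V) (x : ℕ) : Prop :=
  ∀ C : Finset V, C ⊆ S → G.IsClique (C : Set V) → C.card ≤ x

lemma CB.mono {V : Type*} {G : SimpleGraph V} {S T : Finset V} {x : ℕ} (h : CB G S x)
    (hT : T ⊆ S) : CB G T x := fun C hC h1 => h C (hC.trans hT) h1

variable {V : Type*} [DecidableEq V]

/-- Erdős–Szekeres inside a set -/
lemma es (G : SimpleGraph V) : ∀ (m x y : ℕ), x + y = m → ∀ S : Finset V,
    CB G S x → CB Gᶜ S y → S.card + 1 ≤ (x + y).choose x := by
  classical
  intro m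
  induction m with
  | zero =>
    intro x y hxy S hx hy
    obtain rfl : x = 0 := by omega
    obtain rfl : y = 0 := by omega
    rcases S.eq_empty_or_nonempty with h | ⟨v, hv⟩
    · subst h; simp
    · have := hx {v} (by simpa using hv) (by simp)
      simp at this
  | succ m ih =>
    intro x y hxy S hx hy
    rcases S.eq_empty_or_nonempty with h | ⟨v, hv⟩
    · subst h
      have := Nat.choose_pos (show x ≤ x + y by omega)
      simp only [card_empty]; omega
    have hx1 := hx {v} (by simpa using hv) (by simp)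
    have hy1 := hy {v} (by simpa using hv) (by simp)
    simp only [card_singleton] at hx1 hy1
    obtain ⟨x, rfl⟩ : ∃ x', x = x' + 1 := ⟨x - 1, by omega⟩
    obtain ⟨y, rfl⟩ : ∃ y', y = y' + 1 := ⟨y - 1, by omega⟩
    set N := S.filter (fun u => G.Adj v u) with hN
    set M := S.filter (fun u => Gᶜ.Adj v u) with hM
    have hcard : S.card ≤ N.card + M.card + 1 := by
      have : S ⊆ insert v (N ∪ M) := by
        intro u hu
        by_cases huv : u = v
        · subst huv; simp
        · simp only [mem_insert, mem_union, hN, hM, mem_filter, SimpleGraph.compl_adj]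
          by_cases h : G.Adj v u
          · exact Or.inr (Or.inl ⟨hu, h⟩)
          · exact Or.inr (Or.inr ⟨hu, fun h => huv h.symm, h⟩)
      calc S.card ≤ (insert v (N ∪ M)).card := card_le_card this
        _ ≤ (N ∪ M).card + 1 := card_insert_le _ _
        _ ≤ N.card + M.card + 1 := by gcongr; exact card_union_le _ _
    have hNx : CB G N x := by
      intro C hC hc
      have hvC : v ∉ C := fun h => by
        have := hC h
        simp [hN] at this
      have := hx (insert v C) ?_ ?_
      · rw [card_insert_of_notMem hvC] at this; omega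
      · intro u hu
        rcases mem_insert.1 hu with rfl | hu
        · exact hv
        · exact (mem_filter.1 (hC hu)).1
      · rw [coe_insert]
        refine hc.insert ?_
        intro b hb _
        exact (mem_filter.1 (hC hb)).2
    have hMy : CB Gᶜ M y := by
      intro C hC hc
      have hvC : v ∉ C := fun h => by
        have := hC h
        simp [hM] at this
      have := hy (insert v C) ?_ ?_
      · rw [card_insert_of_notMem hvC] at this; omega
      · intro u hu
        rcases mem_insert.1 hu with rfl | hu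
        · exact hv
        · exact (mem_filter.1 (hC hu)).1
      · rw [coe_insert]
        refine hc.insert ?_
        intro b hb _
        exact (mem_filter.1 (hC hb)).2
    have h1 := ih x (y + 1) (by omega) N hNx (hy.mono (filter_subset _ _))
    have h2 := ih (x + 1) y (by omega) M (hx.mono (filter_subset _ _)) hMy
    have h3 : (x + 1 + (y + 1)).choose (x + 1) = (x + (y + 1)).choose x + (x + 1 + y).choose (x + 1) := by
      rw [show x + 1 + (y + 1) = (x + (y + 1)) + 1 by ring, Nat.choose_succ_succ,
        show x + (y + 1) = x + 1 + y by ring]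
    rw [h3]; omega

/-- one halving step: remove from each of the complete bipartite graphs the side with the smaller
cliques -/
lemma step (G : SimpleGraph V) {ι : Type*} [DecidableEq ι] (A B : ι → Set V)
    (hAB : ∀ i, ∀ a ∈ A i, ∀ b ∈ B i, G.Adj a b) (x y F : ℕ)
    (hF : ∀ U : Finset V, CB G U (x / 2) → CB Gᶜ U y → U.card ≤ F) :
    ∀ (I : Finset ι) (S : Finset V), CB G S x → CB Gᶜ S y →
      (∀ u ∈ S, ∀ v ∈ S, G.Adj u v → ∃ i ∈ I, (u ∈ A i ∧ v ∈ B i) ∨ (v ∈ A i ∧ u ∈ B i)) →
      S.card ≤ y + I.card * F := by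
  classical
  intro I
  induction I using Finset.induction_on with
  | empty =>
    intro S _ hy h
    simp only [card_empty, zero_mul, add_zero]
    refine hy S (Finset.Subset.refl _) ?_
    intro u hu v hv huv
    rw [SimpleGraph.compl_adj]
    refine ⟨huv, fun hadj => ?_⟩
    obtain ⟨i, hi, _⟩ := h u hu v hv hadj
    simp at hi
  | insert i I hi ih =>
    intro S hx hy h
    -- one of the two sides has only small cliques
    have key : ∃ U : Finset V, U ⊆ S ∧ CB G U (x / 2) ∧
        ∀ u ∈ S \ U, ∀ v ∈ S \ U, ¬ ((u ∈ A i ∧ v ∈ B i) ∨ (v ∈ A i ∧ u ∈ B i)) := by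
      by_cases hA : CB G (S.filter (fun v => v ∈ A i)) (x / 2)
      · refine ⟨_, filter_subset _ _, hA, ?_⟩
        intro u hu v hv
        simp only [mem_sdiff, mem_filter, not_and] at hu hv
        rintro (⟨h1, _⟩ | ⟨h1, _⟩)
        · exact hu.2 hu.1 h1
        · exact hv.2 hv.1 h1
      by_cases hB : CB G (S.filter (fun v => v ∈ B i)) (x / 2)
      · refine ⟨_, filter_subset _ _, hB, ?_⟩
        intro u hu v hv
        simp only [mem_sdiff, mem_filter, not_and] at hu hv
        rintro (⟨_, h1⟩ | ⟨_, h1⟩)
        · exact hv.2 hv.1 h1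
        · exact hu.2 hu.1 h1
      exfalso
      unfold CB at hA hB
      push Not at hA hB
      obtain ⟨C, hC, hC1, hC2⟩ := hA
      obtain ⟨D, hD, hD1, hD2⟩ := hB
      have hdisj : Disjoint C D := by
        rw [Finset.disjoint_left]
        intro a ha hb
        exact (G.loopless.irrefl a) (hAB i a (mem_filter.1 (hC ha)).2 a (mem_filter.1 (hD hb)).2)
      have := hx (C ∪ D) (union_subset (hC.trans (filter_subset _ _))
        (hD.trans (filter_subset _ _))) ?_
      · rw [card_union_of_disjoint hdisj] at this; omega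
      · intro a ha b hb hab
        simp only [coe_union, Set.mem_union, mem_coe] at ha hb
        rcases ha with ha | ha <;> rcases hb with hb | hb
        · exact hC1 ha hb hab
        · exact hAB i a (mem_filter.1 (hC ha)).2 b (mem_filter.1 (hD hb)).2
        · exact (hAB i b (mem_filter.1 (hC hb)).2 a (mem_filter.1 (hD ha)).2).symm
        · exact hD1 ha hb hab
    obtain ⟨U, hUS, hU, hcov⟩ := key
    have h1 := hF U hU (hy.mono hUS)
    have h2 := ih (S \ U) (hx.mono sdiff_subset) (hy.mono sdiff_subset) (by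
      intro u hu v hv hadj
      obtain ⟨j, hj, hj2⟩ := h u (mem_sdiff.1 hu).1 v (mem_sdiff.1 hv).1 hadj
      rcases mem_insert.1 hj with rfl | hj
      · exact absurd hj2 (hcov u hu v hv)
      · exact ⟨j, hj, hj2⟩)
    have h3 : S.card = (S \ U).card + U.card := by
      rw [card_sdiff_add_card_eq_card hUS]
    rw [card_insert_of_notMem hi, h3]
    nlinarith

lemma le_choose_aux {a y : ℕ} (ha : 1 ≤ a) : y ≤ (a + y).choose a := by
  have h1 : (1 + y).choose 1 = 1 + y := Nat.choose_one_right _
  have h2 : (1 + y).choose y ≤ (a + y).choose y := Nat.choose_le_choose y (by omega)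
  have h3 : (1 + y).choose y = (1 + y).choose 1 := by
    rw [← Nat.choose_symm (show y ≤ 1 + y by omega)]; congr 1; omega
  have h4 : (a + y).choose a = (a + y).choose y := by
    rw [← Nat.choose_symm (show a ≤ a + y by omega)]; congr 1; omega
  omega

lemma iter (G : SimpleGraph V) {t : ℕ} (A B : Fin t → Set V)
    (hAB : ∀ i, ∀ a ∈ A i, ∀ b ∈ B i, G.Adj a b)
    (hcov : ∀ u v, G.Adj u v → ∃ i, (u ∈ A i ∧ v ∈ B i) ∨ (v ∈ A i ∧ u ∈ B i)) (y : ℕ) :
    ∀ (j x : ℕ) (S : Finset V), 2 ^ j ≤ x → CB G S x → CB Gᶜ S y →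
      S.card ≤ (t + 1) ^ j * (x / 2 ^ j + y).choose (x / 2 ^ j) := by
  intro j
  induction j with
  | zero =>
    intro x S _ hx hy
    have := es G (x + y) x y rfl S hx hy
    simp only [pow_zero, Nat.div_one, one_mul]
    omega
  | succ j ih =>
    intro x S hjx hx hy
    have hj2 : 2 ^ j ≤ x / 2 := by
      rw [Nat.le_div_iff_mul_le (by norm_num)]
      calc 2 ^ j * 2 = 2 ^ (j + 1) := by ring
        _ ≤ x := hjx
    have hdiv : x / 2 / 2 ^ j = x / 2 ^ (j + 1) := by
      rw [Nat.div_div_eq_div_mul]; congr 1; ring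
    set F := (t + 1) ^ j * (x / 2 / 2 ^ j + y).choose (x / 2 / 2 ^ j) with hFdef
    have h1 := step G A B hAB x y F (fun U hU1 hU2 => ih (x / 2) U hj2 hU1 hU2) univ S hx hy
      (fun u _ v _ h => by obtain ⟨i, hi⟩ := hcov u v h; exact ⟨i, mem_univ _, hi⟩)
    rw [card_univ, Fintype.card_fin] at h1
    have ha : 1 ≤ x / 2 / 2 ^ j := by
      rw [Nat.one_le_div_iff (by positivity)]; exact hj2
    have h2 : y ≤ F := by
      calc y ≤ (x / 2 / 2 ^ j + y).choose (x / 2 / 2 ^ j) := le_choose_aux ha
        _ ≤ F := Nat.le_mul_of_pos_left _ (by positivity)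
    calc S.card ≤ y + t * F := h1
      _ ≤ F + t * F := by gcongr
      _ = (t + 1) ^ (j + 1) * (x / 2 ^ (j + 1) + y).choose (x / 2 ^ (j + 1)) := by
        rw [hFdef, hdiv]; ring

/-- the finite upper bound -/
theorem upper {n : ℕ} (G : SimpleGraph (Fin n)) {t x y j : ℕ} (hG : Covered G t)
    (hx : G.CliqueFree (x + 1)) (hy : Gᶜ.CliqueFree (y + 1)) (hj : 2 ^ j ≤ x) :
    n ≤ (t + 1) ^ j * (x / 2 ^ j + y).choose (x / 2 ^ j) := by
  obtain ⟨A, B, hAB, hcov⟩ := hG
  have h1 : ∀ (H : SimpleGraph (Fin n)) (z : ℕ), H.CliqueFree (z + 1) → CB H univ z := by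
    intro H z hz C _ hC
    by_contra hlt
    obtain ⟨D, hD1, hD2⟩ := Finset.exists_subset_card_eq (show z + 1 ≤ C.card by omega)
    exact hz D ⟨hC.subset (by exact_mod_cast hD1), hD2⟩
  have := iter G A B hAB hcov y j x univ hj (h1 G x hx) (h1 Gᶜ y hy)
  rwa [card_univ, Fintype.card_fin] at this

/-- with `j = log₂ x` -/
theorem upper_log {n : ℕ} (G : SimpleGraph (Fin n)) {t x y : ℕ} (hG : Covered G t)
    (hx : G.CliqueFree (x + 1)) (hy : Gᶜ.CliqueFree (y + 1)) :
    n ≤ y * (t + 1) ^ (Nat.log 2 x) := by
  obtain ⟨A, B, hAB, hcov⟩ := hG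
  have h1 : ∀ (H : SimpleGraph (Fin n)) (z : ℕ), H.CliqueFree (z + 1) → CB H univ z := by
    intro H z hz C _ hC
    by_contra hlt
    obtain ⟨D, hD1, hD2⟩ := Finset.exists_subset_card_eq (show z + 1 ≤ C.card by omega)
    exact hz D ⟨hC.subset (by exact_mod_cast hD1), hD2⟩
  have main : ∀ (l x : ℕ) (S : Finset (Fin n)), Nat.log 2 x = l → CB G S x → CB Gᶜ S y →
      S.card ≤ y * (t + 1) ^ l := by
    intro l
    induction l with
    | zero =>
      intro x S hl hSx hSy
      have hx1 : x < 2 := by
        rcases Nat.log_eq_zero_iff.1 hl with h | h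
        · exact h
        · omega
      simp only [pow_zero, mul_one]
      refine hSy S (Finset.Subset.refl _) ?_
      intro u hu v hv huv
      rw [SimpleGraph.compl_adj]
      refine ⟨huv, fun hadj => ?_⟩
      have := hSx {u, v} (by
        intro w hw
        simp only [mem_insert, mem_singleton] at hw
        rcases hw with rfl | rfl
        · exact hu
        · exact hv) (by
        rw [coe_pair]
        rw [SimpleGraph.isClique_iff, Set.pairwise_pair]
        intro _
        exact ⟨hadj, hadj.symm⟩)
      rw [card_pair huv] at this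
      omega
    | succ l ih =>
      intro x S hl hSx hSy
      have hl2 : Nat.log 2 (x / 2) = l := by
        rw [Nat.log_div_base, hl]; rfl
      have h1 := step G A B hAB x y (y * (t + 1) ^ l)
        (fun U hU1 hU2 => ih (x / 2) U hl2 hU1 hU2) univ S hSx hSy
        (fun u _ v _ h => by obtain ⟨i, hi⟩ := hcov u v h; exact ⟨i, mem_univ _, hi⟩)
      rw [card_univ, Fintype.card_fin] at h1
      calc S.card ≤ y + t * (y * (t + 1) ^ l) := h1
        _ ≤ y * (t + 1) ^ l + t * (y * (t + 1) ^ l) := by
          gcongr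
          exact Nat.le_mul_of_pos_right _ (by positivity)
        _ = y * (t + 1) ^ (l + 1) := by ring
  have := main _ x univ rfl (h1 G x hx) (h1 Gᶜ y hy)
  rwa [card_univ, Fintype.card_fin] at this

end Pool.Agent.R70.BC
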