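import Mathlib
import Pool.Agent.R70.BC.Rows
import Pool.Agent.R70.BC.Upper

/-! The three bad events and the deterministic analysis. -/

set_option autoImplicit false
set_option linter.unusedSectionVars false

namespace Pool.Agent.R70.BC

open Finset

variable {n t : ℕ} {Q : Type} [Fintype Q] [DecidableEq Q]

/-- the graph of the configuration `f` -/
def gr (a b : Q) (hab : a ≠ b) (f : Fin t → Fin n → Q) : SimpleGraph (Fin n) where
  Adj u v := ∃ i, (f i u = a ∧ f i v = b) ∨ (f i v = a ∧ f i u = b)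
  symm := ⟨fun _ _ ⟨i, h⟩ => ⟨i, h.symm⟩⟩
  loopless := ⟨fun v ⟨i, h⟩ => by
    rcases h with ⟨h1, h2⟩ | ⟨h1, h2⟩
    · exact hab (h1.symm.trans h2)
    · exact hab (h1.symm.trans h2)⟩

lemma gr_covered (a b : Q) (hab : a ≠ b) (f : Fin t → Fin n → Q) : Covered (gr a b hab f) t :=
  ⟨fun i => {v | f i v = a}, fun i => {v | f i v = b},
    fun i _ hu _ hv => ⟨i, Or.inl ⟨hu, hv⟩⟩, fun _ _ ⟨i, h⟩ => ⟨i, h⟩⟩

lemma sum_prod_rows (g : (Fin n → Q) → ℝ) :
    ∑ f : Fin t → Fin n → Q, ∏ i, g (f i) = (∑ x, g x) ^ t :=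
  (Fintype.sum_pow g t).symm

lemma event1 (hq : (1:ℝ) ≤ Fintype.card Q) (a b : Q) (K L : Finset (Fin n)) (hKL : Disjoint K L)
    {m : ℕ} (hK : K.card = m) (hL : L.card = m) (hm : (m:ℝ) ≤ Fintype.card Q) :
    ((univ.filter (fun f : Fin t → Fin n → Q =>
      ∀ i, ¬ ((∃ u ∈ K, f i u = a) ∧ ∃ v ∈ L, f i v = b))).card : ℝ) ≤
      ((Fintype.card Q : ℝ) ^ n) ^ t *
        Real.exp (- (t * (m:ℝ) ^ 2 / (4 * (Fintype.card Q : ℝ) ^ 2))) := by
  set q : ℝ := (Fintype.card Q : ℝ) with hqdef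
  have hq0 : 0 < q := by linarith
  set g : (Fin n → Q) → ℝ := fun x =>
    if (∃ u ∈ K, x u = a) ∧ (∃ v ∈ L, x v = b) then (0:ℝ) else 1 with hg
  have hg0 : ∀ x, 0 ≤ g x := by intro x; simp only [hg]; split_ifs <;> norm_num
  have h1 := markov (fun f : Fin t → Fin n → Q =>
      ∀ i, ¬ ((∃ u ∈ K, f i u = a) ∧ ∃ v ∈ L, f i v = b)) (fun f => ∏ i, g (f i))
      (fun f => prod_nonneg fun i _ => hg0 _) 1 one_pos (by
        intro f hf
        rw [Finset.prod_eq_one]
        intro i _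
        simp only [hg]
        rw [if_neg (hf i)])
  rw [div_one, sum_prod_rows] at h1
  refine h1.trans ?_
  have h2 : ∑ x, g x ≤ q ^ n * (1 - (m:ℝ) ^ 2 / (4 * q ^ 2)) := row_miss hq K L hKL hK hL hm a b
  have h3 : ∑ x, g x ≤ q ^ n * Real.exp (- ((m:ℝ) ^ 2 / (4 * q ^ 2))) := by
    refine h2.trans ?_
    gcongr
    have := Real.add_one_le_exp (- ((m:ℝ) ^ 2 / (4 * q ^ 2)))
    linarith
  calc (∑ x, g x) ^ t ≤ (q ^ n * Real.exp (- ((m:ℝ) ^ 2 / (4 * q ^ 2)))) ^ t := by
        gcongr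
    _ = _ := by
        rw [mul_pow, ← Real.exp_nat_mul]
        congr 2
        ring

/-- number of vertices of `K` in the `i`-th complete bipartite graph -/
def deg (a b : Q) (K : Finset (Fin n)) (x : Fin n → Q) : ℕ :=
  (K.filter (fun v => x v = a ∨ x v = b)).card

lemma event2 (hq : (1:ℝ) ≤ Fintype.card Q) (a b : Q) (K : Finset (Fin n)) (w : ℝ) (hw : 1 ≤ w)
    (hk : 2 * w * K.card / Fintype.card Q ≤ 1 / 2) (M : ℕ) :
    ((univ.filter (fun f : Fin t → Fin n → Q =>
      M ≤ ∑ i ∈ univ.filter (fun i => 3 ≤ deg a b K (f i)), deg a b K (f i))).card : ℝ) ≤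
      ((Fintype.card Q : ℝ) ^ n) ^ t *
        Real.exp (t * (16 * (K.card:ℝ) ^ 3 * w ^ 3 / (Fintype.card Q : ℝ) ^ 3)) / w ^ M := by
  set q : ℝ := (Fintype.card Q : ℝ) with hqdef
  have hq0 : 0 < q := by linarith
  have hw0 : 0 < w := by linarith
  set g : (Fin n → Q) → ℝ := fun x =>
    if 3 ≤ deg a b K x then w ^ deg a b K x else (1:ℝ) with hg
  have hg0 : ∀ x, 0 ≤ g x := by intro x; simp only [hg]; split_ifs <;> positivity
  have h1 := markov (fun f : Fin t → Fin n → Q =>
      M ≤ ∑ i ∈ univ.filter (fun i => 3 ≤ deg a b K (f i)), deg a b K (f i))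
      (fun f => ∏ i, g (f i))
      (fun f => prod_nonneg fun i _ => hg0 _) (w ^ M) (by positivity) (by
        intro f hf
        have h2 : ∏ i, g (f i) =
            w ^ (∑ i ∈ univ.filter (fun i => 3 ≤ deg a b K (f i)), deg a b K (f i)) := by
          rw [← Finset.prod_pow_eq_pow_sum, Finset.prod_filter]
        show w ^ M ≤ ∏ i, g (f i)
        rw [h2]
        exact pow_le_pow_right₀ hw hf)
  rw [sum_prod_rows] at h1
  refine h1.trans ?_
  have h2 : ∑ x, g x ≤ q ^ n * (1 + 16 * (K.card:ℝ) ^ 3 * w ^ 3 / q ^ 3) :=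
    row_big hq a b K w hw hk
  have h3 : ∑ x, g x ≤ q ^ n * Real.exp (16 * (K.card:ℝ) ^ 3 * w ^ 3 / q ^ 3) := by
    refine h2.trans ?_
    gcongr
    have := Real.add_one_le_exp (16 * (K.card:ℝ) ^ 3 * w ^ 3 / q ^ 3)
    linarith
  gcongr
  calc (∑ x, g x) ^ t ≤ (q ^ n * Real.exp (16 * (K.card:ℝ) ^ 3 * w ^ 3 / q ^ 3)) ^ t := by
        gcongr
    _ = _ := by
        rw [mul_pow, ← Real.exp_nat_mul]

lemma event3 (hq : (1:ℝ) ≤ Fintype.card Q) (a b : Q) (hab : a ≠ b) (K : Finset (Fin n)) (N : ℕ) :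
    ((univ.filter (fun f : Fin t → Fin n → Q =>
      N ≤ (univ.filter (fun i => (K.filter (fun v => f i v = a)).card = 1 ∧
        (K.filter (fun v => f i v = b)).card = 1)).card)).card : ℝ) ≤
      ((Fintype.card Q : ℝ) ^ n) ^ t *
        Real.exp (t * (3 * ((K.card:ℝ) * (K.card - 1)) / (Fintype.card Q : ℝ) ^ 2)) / 4 ^ N := by
  set q : ℝ := (Fintype.card Q : ℝ) with hqdef
  have hq0 : 0 < q := by linarith
  set g : (Fin n → Q) → ℝ := fun x =>
    if (K.filter (fun v => x v = a)).card = 1 ∧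
        (K.filter (fun v => x v = b)).card = 1 ∧ a ≠ b then (4:ℝ) else 1 with hg
  have hg0 : ∀ x, 0 ≤ g x := by intro x; simp only [hg]; split_ifs <;> positivity
  have h1 := markov (fun f : Fin t → Fin n → Q =>
      N ≤ (univ.filter (fun i => (K.filter (fun v => f i v = a)).card = 1 ∧
        (K.filter (fun v => f i v = b)).card = 1)).card)
      (fun f => ∏ i, g (f i))
      (fun f => prod_nonneg fun i _ => hg0 _) (4 ^ N) (by positivity) (by
        intro f hf
        have h2 : ∏ i, g (f i) =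
            4 ^ (univ.filter (fun i => (K.filter (fun v => f i v = a)).card = 1 ∧
              (K.filter (fun v => f i v = b)).card = 1)).card := by
          rw [← Finset.prod_const, Finset.prod_filter]
          apply Finset.prod_congr rfl
          intro i _
          simp only [hg, hab, ne_eq, not_false_eq_true, and_true]
        show (4:ℝ) ^ N ≤ ∏ i, g (f i)
        rw [h2]
        exact pow_le_pow_right₀ (by norm_num) hf)
  rw [sum_prod_rows] at h1
  refine h1.trans ?_
  have h2 : ∑ x, g x ≤ q ^ n * (1 + 3 * ((K.card:ℝ) * (K.card - 1)) / q ^ 2) :=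
    row_exact hq a b K
  have h3 : ∑ x, g x ≤ q ^ n * Real.exp (3 * ((K.card:ℝ) * (K.card - 1)) / q ^ 2) := by
    refine h2.trans ?_
    gcongr
    have := Real.add_one_le_exp (3 * ((K.card:ℝ) * (K.card - 1)) / q ^ 2)
    linarith
  gcongr
  calc (∑ x, g x) ^ t ≤ (q ^ n * Real.exp (3 * ((K.card:ℝ) * (K.card - 1)) / q ^ 2)) ^ t := by
        gcongr
    _ = _ := by
        rw [mul_pow, ← Real.exp_nat_mul]

/-- choosing one side of each complete bipartite graph in `I` -/
lemma kill {ι : Type*} [DecidableEq ι] (a b : Q) (hab : a ≠ b) (f : ι → Fin n → Q) :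
    ∀ (I : Finset ι) (K : Finset (Fin n)), ∃ K' ⊆ K,
      ∑ v ∈ K, (1 / 2 : ℝ) ^ ((I.filter (fun i => f i v = a ∨ f i v = b)).card) ≤ K'.card ∧
      ∀ i ∈ I, ¬ ((∃ u ∈ K', f i u = a) ∧ ∃ v ∈ K', f i v = b) := by
  intro I
  induction I using Finset.induction_on with
  | empty =>
    intro K
    exact ⟨K, Finset.Subset.refl _, by simp, by simp⟩
  | insert i I hi ih =>
    intro K
    set d : Fin n → ℕ := fun v => (I.filter (fun i => f i v = a ∨ f i v = b)).card with hd
    have h1 : ∀ v, (1 / 2 : ℝ) ^ (((insert i I).filter (fun i => f i v = a ∨ f i v = b)).card) =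
        1 / 2 * ((if f i v ≠ a then (1 / 2 : ℝ) ^ d v else 0) +
          (if f i v ≠ b then (1 / 2 : ℝ) ^ d v else 0)) := by
      intro v
      rw [filter_insert]
      by_cases h : f i v = a ∨ f i v = b
      · rw [if_pos h, card_insert_of_notMem (by simp [hi])]
        rcases h with h | h
        · have h2 : f i v ≠ b := by rw [h]; exact hab
          rw [if_neg (not_not.2 h), if_pos h2, pow_succ]; ring
        · have h2 : f i v ≠ a := by rw [h]; exact hab.symm
          rw [if_neg (not_not.2 h), if_pos h2, pow_succ]; ring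
      · rw [if_neg h]
        push Not at h
        rw [if_pos h.1, if_pos h.2]; ring
    simp only [h1]
    rw [← mul_sum, sum_add_distrib, ← sum_filter, ← sum_filter]
    obtain ⟨KA, hA1, hA2, hA3⟩ := ih (K.filter (fun v => f i v ≠ a))
    obtain ⟨KB, hB1, hB2, hB3⟩ := ih (K.filter (fun v => f i v ≠ b))
    by_cases hc : (KB.card : ℝ) ≤ KA.card
    · refine ⟨KA, hA1.trans (filter_subset _ _), by linarith, ?_⟩
      intro j hj
      rcases mem_insert.1 hj with rfl | hj
      · rintro ⟨⟨u, hu, hu2⟩, _⟩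
        exact (mem_filter.1 (hA1 hu)).2 hu2
      · exact hA3 j hj
    · refine ⟨KB, hB1.trans (filter_subset _ _), by linarith, ?_⟩
      intro j hj
      rcases mem_insert.1 hj with rfl | hj
      · rintro ⟨_, ⟨u, hu, hu2⟩⟩
        exact (mem_filter.1 (hB1 hu)).2 hu2
      · exact hB3 j hj

lemma avg {V : Type*} (K : Finset V) (d : V → ℕ) (m : ℕ) (h : ∑ v ∈ K, d v ≤ m * K.card) :
    (K.card : ℝ) * (1 / 2) ^ m ≤ ∑ v ∈ K, (1 / 2 : ℝ) ^ d v := by
  have h1 : ∀ v, (1 / 2 : ℝ) ^ m * (1 - ((d v : ℝ) - m) * Real.log 2) ≤ (1 / 2 : ℝ) ^ d v := by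
    intro v
    have e : ∀ j : ℕ, (1 / 2 : ℝ) ^ j = Real.exp (- (j * Real.log 2)) := by
      intro j
      rw [Real.exp_neg, Real.exp_nat_mul, Real.exp_log (by norm_num)]
      simp
    rw [e, e]
    have h2 := Real.add_one_le_exp (- (((d v : ℝ) - m) * Real.log 2))
    calc Real.exp (- (m * Real.log 2)) * (1 - ((d v : ℝ) - m) * Real.log 2)
        ≤ Real.exp (- (m * Real.log 2)) * Real.exp (- (((d v : ℝ) - m) * Real.log 2)) := by
          gcongr; linarith
      _ = Real.exp (- (d v * Real.log 2)) := by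
          rw [← Real.exp_add]; congr 1; ring
  have h2 : ∑ v ∈ K, (1 / 2 : ℝ) ^ m * (1 - ((d v : ℝ) - m) * Real.log 2) ≤
      ∑ v ∈ K, (1 / 2 : ℝ) ^ d v := sum_le_sum fun v _ => h1 v
  refine le_trans ?_ h2
  rw [← mul_sum, mul_comm]
  gcongr
  have h3 : ∑ v ∈ K, (1 - ((d v : ℝ) - m) * Real.log 2) =
      K.card - (∑ v ∈ K, (d v : ℝ) - m * K.card) * Real.log 2 := by
    rw [sum_sub_distrib, ← sum_mul, sum_sub_distrib, sum_const, sum_const, nsmul_eq_mul,
      nsmul_eq_mul]
    ring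
  rw [h3]
  have h4 : (∑ v ∈ K, (d v : ℝ)) ≤ m * K.card := by exact_mod_cast h
  have h5 : 0 < Real.log 2 := Real.log_pos (by norm_num)
  nlinarith

lemma swap_sum {ι : Type*} [DecidableEq ι] (a b : Q) (f : ι → Fin n → Q) (I : Finset ι)
    (K : Finset (Fin n)) :
    ∑ v ∈ K, (I.filter (fun i => f i v = a ∨ f i v = b)).card =
      ∑ i ∈ I, deg a b K (f i) := by
  unfold deg
  simp only [card_filter]
  rw [Finset.sum_comm]

/-- no clique of size `k` when the second and third events do not happen -/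
lemma cliqueFree_of (a b : Q) (hab : a ≠ b) (f : Fin t → Fin n → Q) (k k' m : ℕ)
    (hk' : (k' : ℝ) ≤ k * (1 / 2) ^ m)
    (h2 : ∀ K : Finset (Fin n), K.card = k →
      ∑ i ∈ univ.filter (fun i => 3 ≤ deg a b K (f i)), deg a b K (f i) ≤ m * k)
    (h3 : ∀ K : Finset (Fin n), K.card = k' →
      (univ.filter (fun i => (K.filter (fun v => f i v = a)).card = 1 ∧
        (K.filter (fun v => f i v = b)).card = 1)).card < k'.choose 2) :
    (gr a b hab f).CliqueFree k := by
  intro K ⟨hK1, hK2⟩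
  set I := univ.filter (fun i => 3 ≤ deg a b K (f i)) with hI
  obtain ⟨K', hK'1, hK'2, hK'3⟩ := kill a b hab f I K
  have h4 := avg K (fun v => (I.filter (fun i => f i v = a ∨ f i v = b)).card) m (by
    rw [swap_sum, hK2]; exact h2 K hK2)
  have h5 : (k' : ℝ) ≤ K'.card := by
    rw [hK2] at h4
    linarith
  have h5' : k' ≤ K'.card := by exact_mod_cast h5
  obtain ⟨L, hL1, hL2⟩ := Finset.exists_subset_card_eq h5'
  have h6 := h3 L hL2
  have h7 : powersetCard 2 L ⊆ (univ.filter (fun i => (L.filter (fun v => f i v = a)).card = 1 ∧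
        (L.filter (fun v => f i v = b)).card = 1)).image
        (fun i => L.filter (fun v => f i v = a ∨ f i v = b)) := by
    intro S hS
    obtain ⟨hS1, hS2⟩ := mem_powersetCard.1 hS
    obtain ⟨u₀, v₀, huv₀, rfl⟩ := card_eq_two.1 hS2
    have hu₀ : u₀ ∈ L := hS1 (by simp)
    have hv₀ : v₀ ∈ L := hS1 (by simp)
    have hadj : (gr a b hab f).Adj u₀ v₀ :=
      hK1 (by exact_mod_cast hK'1 (hL1 hu₀)) (by exact_mod_cast hK'1 (hL1 hv₀)) huv₀
    -- wlog `u` has colour `a`
    have key : ∀ u v : Fin n, u ∈ L → v ∈ L → u ≠ v → ∀ i, f i u = a → f i v = b →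
        ({u, v} : Finset (Fin n)) ∈ (univ.filter (fun i =>
          (L.filter (fun v => f i v = a)).card = 1 ∧
          (L.filter (fun v => f i v = b)).card = 1)).image
          (fun i => L.filter (fun v => f i v = a ∨ f i v = b)) := by
      intro u v hu hv huv i hia hib
      have hiI : i ∉ I := fun hiI => hK'3 i hiI ⟨⟨u, hL1 hu, hia⟩, ⟨v, hL1 hv, hib⟩⟩
      have hdeg : deg a b K (f i) ≤ 2 := by
        by_contra hlt
        exact hiI (mem_filter.2 ⟨mem_univ _, by omega⟩)
      have hsub : ({u, v} : Finset (Fin n)) ⊆ K.filter (fun v => f i v = a ∨ f i v = b) := by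
        intro z hz
        simp only [mem_insert, mem_singleton] at hz
        rcases hz with rfl | rfl
        · exact mem_filter.2 ⟨hK'1 (hL1 hu), Or.inl hia⟩
        · exact mem_filter.2 ⟨hK'1 (hL1 hv), Or.inr hib⟩
      have heq : ({u, v} : Finset (Fin n)) = K.filter (fun v => f i v = a ∨ f i v = b) :=
        eq_of_subset_of_card_le hsub (by rw [card_pair huv]; exact hdeg)
      have hin : ∀ z ∈ L, (f i z = a ∨ f i z = b) → z = u ∨ z = v := by
        intro z hz hz2
        have : z ∈ ({u, v} : Finset (Fin n)) := by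
          rw [heq]; exact mem_filter.2 ⟨hK'1 (hL1 hz), hz2⟩
        simpa using this
      have e1 : L.filter (fun v => f i v = a) = {u} := by
        ext z
        simp only [mem_filter, mem_singleton]
        constructor
        · rintro ⟨hz1, hz2⟩
          rcases hin z hz1 (Or.inl hz2) with h | h
          · exact h
          · subst h; exact absurd (hz2.symm.trans hib) hab
        · rintro rfl; exact ⟨hu, hia⟩
      have e2 : L.filter (fun v => f i v = b) = {v} := by
        ext z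
        simp only [mem_filter, mem_singleton]
        constructor
        · rintro ⟨hz1, hz2⟩
          rcases hin z hz1 (Or.inr hz2) with h | h
          · subst h; exact absurd (hia.symm.trans hz2) hab
          · exact h
        · rintro rfl; exact ⟨hv, hib⟩
      refine mem_image.2 ⟨i, mem_filter.2 ⟨mem_univ _, by rw [e1]; simp, by rw [e2]; simp⟩, ?_⟩
      ext z
      simp only [mem_filter, mem_insert, mem_singleton]
      constructor
      · rintro ⟨hz1, hz2⟩; exact hin z hz1 hz2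
      · rintro (rfl | rfl)
        · exact ⟨hu, Or.inl hia⟩
        · exact ⟨hv, Or.inr hib⟩
    obtain ⟨i, hi | hi⟩ := hadj
    · exact key u₀ v₀ hu₀ hv₀ huv₀ i hi.1 hi.2
    · rw [Finset.pair_comm]
      exact key v₀ u₀ hv₀ hu₀ huv₀.symm i hi.1 hi.2
  have h8 := card_le_card h7
  rw [card_powersetCard, hL2] at h8
  have h9 := h8.trans card_image_le
  omega

lemma compl_cliqueFree_of (a b : Q) (hab : a ≠ b) (f : Fin t → Fin n → Q) (m : ℕ)
    (h1 : ∀ K L : Finset (Fin n), K.card = m → L.card = m → Disjoint K L →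
      ∃ i, (∃ u ∈ K, f i u = a) ∧ ∃ v ∈ L, f i v = b) :
    (gr a b hab f)ᶜ.CliqueFree (2 * m) := by
  intro S ⟨hS1, hS2⟩
  obtain ⟨K, hK1, hK2⟩ := Finset.exists_subset_card_eq (show m ≤ S.card by omega)
  have hL : (S \ K).card = m := by
    rw [card_sdiff_of_subset hK1]; omega
  obtain ⟨i, ⟨u, hu, hu2⟩, ⟨v, hv, hv2⟩⟩ := h1 K (S \ K) hK2 hL disjoint_sdiff
  have huS := hK1 hu
  have hvS := (mem_sdiff.1 hv).1
  have huv : u ≠ v := by
    rintro rfl; exact (mem_sdiff.1 hv).2 hu
  have := hS1 (by exact_mod_cast huS) (by exact_mod_cast hvS) huv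
  rw [SimpleGraph.compl_adj] at this
  exact this.2 ⟨i, Or.inl ⟨hu2, hv2⟩⟩

end Pool.Agent.R70.BC
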