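import Mathlib
import Pool.Agent.R70.BC.Events

/-! Existence of the colourings. -/

set_option autoImplicit false

namespace Pool.Agent.R70.BC

open Finset

lemma union_bound {Ω P : Type*} [Fintype Ω] [DecidableEq Ω] (S : Finset P) (E : P → Ω → Prop)
    [∀ p, DecidablePred (E p)] [DecidablePred fun f => ∃ p ∈ S, E p f] (c : ℝ)
    (h : ∀ p ∈ S, ((univ.filter (E p)).card : ℝ) ≤ c) :
    ((univ.filter (fun f => ∃ p ∈ S, E p f)).card : ℝ) ≤ S.card * c := by
  have h1 : univ.filter (fun f => ∃ p ∈ S, E p f) ⊆ S.biUnion (fun p => univ.filter (E p)) := by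
    intro f hf
    obtain ⟨p, hp, hpf⟩ := (mem_filter.1 hf).2
    exact mem_biUnion.2 ⟨p, hp, mem_filter.2 ⟨mem_univ _, hpf⟩⟩
  calc ((univ.filter (fun f => ∃ p ∈ S, E p f)).card : ℝ)
      ≤ ((S.biUnion (fun p => univ.filter (E p))).card : ℝ) := by
        exact_mod_cast card_le_card h1
    _ ≤ ((∑ p ∈ S, (univ.filter (E p)).card : ℕ) : ℝ) := by
        exact_mod_cast card_biUnion_le
    _ = ∑ p ∈ S, ((univ.filter (E p)).card : ℝ) := by push_cast; rfl
    _ ≤ ∑ p ∈ S, c := sum_le_sum h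
    _ = S.card * c := by rw [sum_const, nsmul_eq_mul]

lemma exp_half_le : Real.exp (1 / 2) ≤ 2 := by
  have h5 : Real.exp (1 / 2) ^ 2 = Real.exp 1 := by
    rw [← Real.exp_nat_mul]; norm_num
  have h6 := Real.exp_one_lt_d9
  have h7 := Real.exp_pos (1 / 2)
  nlinarith

lemma exp_neg_two_le : Real.exp (-2) ≤ 1 / 4 := by
  have h1 : Real.exp 2 = Real.exp 1 ^ 2 := by rw [← Real.exp_nat_mul]; norm_num
  have h6 := Real.exp_one_gt_d9
  rw [Real.exp_neg, inv_le_comm₀ (Real.exp_pos _) (by norm_num), h1]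
  norm_num
  nlinarith

lemma log_four_ge : (19 / 16 : ℝ) ≤ Real.log 4 := by
  have h1 : Real.log 4 = 2 * Real.log 2 := by
    rw [show (4:ℝ) = 2 ^ 2 by norm_num, Real.log_pow]; norm_num
  have := Real.log_two_gt_d9
  rw [h1]; linarith

theorem exists_good (s u k m k' : ℕ) (hu : 4 ≤ u) (hk1 : 1 ≤ k) (hk3 : (k:ℝ) ^ 3 ≤ 2 * u)
    (h2m : 2 * m ≤ k) (hk' : (k':ℝ) ≤ k * (1 / 2) ^ (4 * s))
    (hc1 : 8 * s * Real.log (2 * u) * m + 2 ≤ (m:ℝ) ^ 2 / 128)
    (hc3 : 4 * s * Real.log (2 * u) * k' + 2 ≤ (k'.choose 2 : ℝ)) :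
    ∃ G : SimpleGraph (Fin ((2 * u) ^ (4 * s))),
      G.CliqueFree k ∧ Gᶜ.CliqueFree k ∧ Covered G (8 * u ^ 8) := by
  classical
  have hu0 : (4:ℝ) ≤ u := by exact_mod_cast hu
  have hupos : (0:ℝ) < u := by linarith
  have h16 : 2 ≤ (2 * u) ^ 4 := by
    calc 2 ≤ (2 * u) ^ 1 := by rw [pow_one]; omega
      _ ≤ (2 * u) ^ 4 := Nat.pow_le_pow_right (by omega) (by norm_num)
  set q : ℕ := (2 * u) ^ 4 with hq
  set n : ℕ := (2 * u) ^ (4 * s) with hn
  set t : ℕ := 8 * u ^ 8 with ht
  set a : Fin q := ⟨0, by omega⟩ with ha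
  set b : Fin q := ⟨1, by omega⟩ with hb
  have hab : a ≠ b := by
    intro h
    have := congrArg Fin.val h
    simp [ha, hb] at this
  set w : ℝ := 2 * u with hw
  have hw8 : 8 ≤ w := by rw [hw]; linarith
  have hw0 : 0 < w := by linarith
  have hcQ : (Fintype.card (Fin q) : ℝ) = w ^ 4 := by
    rw [Fintype.card_fin, hq, hw]; push_cast; ring
  have hnR : (n : ℝ) = w ^ (4 * s) := by rw [hn, hw]; push_cast; ring
  have htR : (t : ℝ) = w ^ 8 / 32 := by rw [ht, hw]; push_cast; ring
  set L : ℝ := Real.log w with hL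
  have hwexp : w = Real.exp L := (Real.exp_log hw0).symm
  have hq1 : (1:ℝ) ≤ Fintype.card (Fin q) := by
    rw [hcQ]; exact one_le_pow₀ (by linarith)
  have hkR1 : (1:ℝ) ≤ k := by exact_mod_cast hk1
  have hkw : (k:ℝ) ≤ w := by
    have : (k:ℝ) ≤ (k:ℝ) ^ 3 := by nlinarith [mul_self_nonneg ((k:ℝ) - 1), mul_pos (by linarith : (0:ℝ) < k) (by linarith : (0:ℝ) < k)]
    linarith
  set Z : ℝ := ((Fintype.card (Fin q) : ℝ) ^ n) ^ t with hZ
  have hZ0 : 0 < Z := by rw [hZ]; positivity
  have hΩ : (Fintype.card (Fin t → Fin n → Fin q) : ℝ) = Z := by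
    rw [hZ]; simp [Fintype.card_fin]
  -- event 1
  set S1 : Finset (Finset (Fin n) × Finset (Fin n)) :=
    ((powersetCard m univ) ×ˢ (powersetCard m univ)).filter (fun p => Disjoint p.1 p.2) with hS1
  set E1 : Finset (Fin n) × Finset (Fin n) → (Fin t → Fin n → Fin q) → Prop := fun p f =>
    ∀ i, ¬ ((∃ u ∈ p.1, f i u = a) ∧ ∃ v ∈ p.2, f i v = b) with hE1
  have hB1 : ((univ.filter (fun f => ∃ p ∈ S1, E1 p f)).card : ℝ) ≤ Z / 4 := by
    have h1 := union_bound S1 E1 (Z * Real.exp (-((m:ℝ) ^ 2 / 128))) (by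
      intro p hp
      obtain ⟨hp1, hp2⟩ := mem_filter.1 hp
      obtain ⟨hp3, hp4⟩ := mem_product.1 hp1
      have h2 := event1 (t := t) hq1 a b p.1 p.2 hp2 (mem_powersetCard.1 hp3).2
        (mem_powersetCard.1 hp4).2 (by
          rw [hcQ]
          calc (m:ℝ) ≤ k := by exact_mod_cast (by omega : m ≤ k)
            _ ≤ w := hkw
            _ ≤ w ^ 4 := le_self_pow₀ (by linarith) (by norm_num))
      refine h2.trans (le_of_eq ?_)
      rw [← hZ, hcQ, htR]
      congr 3
      field_simp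
      ring)
    refine h1.trans ?_
    have hc : (S1.card : ℝ) ≤ Real.exp (8 * s * L * m) := by
      calc (S1.card : ℝ) ≤ (((powersetCard m (univ : Finset (Fin n))) ×ˢ
            (powersetCard m (univ : Finset (Fin n)))).card : ℝ) := by
            exact_mod_cast card_filter_le _ _
        _ = ((n.choose m : ℕ) : ℝ) * ((n.choose m : ℕ) : ℝ) := by
            rw [card_product, card_powersetCard, card_univ, Fintype.card_fin]; push_cast; rfl
        _ ≤ ((n ^ m : ℕ) : ℝ) * ((n ^ m : ℕ) : ℝ) := by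
            gcongr <;> exact Nat.choose_le_pow n m
        _ = Real.exp (8 * s * L * m) := by
            push_cast
            rw [hnR, ← pow_mul, ← pow_add]
            nth_rewrite 1 [hwexp]
            rw [← Real.exp_nat_mul]
            congr 1
            push_cast; ring
    calc (S1.card : ℝ) * (Z * Real.exp (-((m:ℝ) ^ 2 / 128)))
        ≤ Real.exp (8 * s * L * m) * (Z * Real.exp (-((m:ℝ) ^ 2 / 128))) := by gcongr
      _ = Z * Real.exp (8 * s * L * m - (m:ℝ) ^ 2 / 128) := by
          rw [sub_eq_add_neg, Real.exp_add]; ring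
      _ ≤ Z * Real.exp (-2) := by
          gcongr; linarith
      _ ≤ Z / 4 := by
          have := exp_neg_two_le
          nlinarith
  -- event 2
  set M : ℕ := 4 * s * k + 1 with hM
  set S2 : Finset (Finset (Fin n)) := powersetCard k univ with hS2
  set E2 : Finset (Fin n) → (Fin t → Fin n → Fin q) → Prop := fun K f =>
    M ≤ ∑ i ∈ univ.filter (fun i => 3 ≤ deg a b K (f i)), deg a b K (f i) with hE2
  have hB2 : ((univ.filter (fun f => ∃ K ∈ S2, E2 K f)).card : ℝ) ≤ Z / 4 := by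
    have h1 := union_bound S2 E2 (Z * 2 / w ^ M) (by
      intro K hK
      have hKc : K.card = k := (mem_powersetCard.1 hK).2
      have h2 := event2 (t := t) hq1 a b K w (by linarith) (by
        rw [hKc, hcQ, div_le_iff₀ (by positivity)]
        have e1 : w ^ 2 * 64 ≤ w ^ 4 := by nlinarith [mul_self_nonneg w, sq_nonneg (w ^ 2 - 64)]
        nlinarith) M
      refine h2.trans ?_
      rw [← hZ, hcQ, htR, hKc]
      have e2 : w ^ 8 / 32 * (16 * (k:ℝ) ^ 3 * w ^ 3 / (w ^ 4) ^ 3) = (k:ℝ) ^ 3 / (2 * w) := by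
        field_simp; ring
      rw [e2]
      have e3 : (k:ℝ) ^ 3 / (2 * w) ≤ 1 / 2 := by
        rw [div_le_iff₀ (by positivity)]; linarith
      have e4 : Real.exp ((k:ℝ) ^ 3 / (2 * w)) ≤ 2 :=
        (Real.exp_le_exp.2 e3).trans exp_half_le
      gcongr)
    refine h1.trans ?_
    have hc : (S2.card : ℝ) ≤ w ^ (4 * s * k) := by
      rw [hS2, card_powersetCard, card_univ, Fintype.card_fin]
      calc ((n.choose k : ℕ) : ℝ) ≤ ((n ^ k : ℕ) : ℝ) := by exact_mod_cast Nat.choose_le_pow n k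
        _ = w ^ (4 * s * k) := by push_cast; rw [hnR, ← pow_mul]
    calc (S2.card : ℝ) * (Z * 2 / w ^ M) ≤ w ^ (4 * s * k) * (Z * 2 / w ^ M) := by gcongr
      _ = Z * (2 / w) := by
          rw [hM, pow_succ]; field_simp
      _ ≤ Z / 4 := by
          have : 2 / w ≤ 1 / 4 := by
            rw [div_le_iff₀ hw0]; linarith
          nlinarith
  -- event 3
  set N : ℕ := k'.choose 2 with hN
  set S3 : Finset (Finset (Fin n)) := powersetCard k' univ with hS3
  set E3 : Finset (Fin n) → (Fin t → Fin n → Fin q) → Prop := fun K f =>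
    N ≤ (univ.filter (fun i => (K.filter (fun v => f i v = a)).card = 1 ∧
        (K.filter (fun v => f i v = b)).card = 1)).card with hE3
  have hB3 : ((univ.filter (fun f => ∃ K ∈ S3, E3 K f)).card : ℝ) ≤ Z / 4 := by
    have h1 := union_bound S3 E3 (Z * Real.exp (3 * N / 16) / 4 ^ N) (by
      intro K hK
      have hKc : K.card = k' := (mem_powersetCard.1 hK).2
      have h2 := event3 (t := t) hq1 a b hab K N
      refine h2.trans (le_of_eq ?_)
      rw [← hZ, hcQ, htR, hKc]
      congr 3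
      have : (N:ℝ) = k' * (k' - 1) / 2 := by rw [hN, Nat.cast_choose_two]
      rw [this]
      field_simp
      ring)
    refine h1.trans ?_
    have hc : (S3.card : ℝ) ≤ Real.exp (4 * s * L * k') := by
      rw [hS3, card_powersetCard, card_univ, Fintype.card_fin]
      calc ((n.choose k' : ℕ) : ℝ) ≤ ((n ^ k' : ℕ) : ℝ) := by
            exact_mod_cast Nat.choose_le_pow n k'
        _ = Real.exp (4 * s * L * k') := by
            push_cast
            rw [hnR, ← pow_mul]
            nth_rewrite 1 [hwexp]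
            rw [← Real.exp_nat_mul]
            congr 1
            push_cast; ring
    have h4 : (4:ℝ) ^ N = Real.exp (N * Real.log 4) := by
      rw [Real.exp_nat_mul, Real.exp_log (by norm_num)]
    calc (S3.card : ℝ) * (Z * Real.exp (3 * N / 16) / 4 ^ N)
        ≤ Real.exp (4 * s * L * k') * (Z * Real.exp (3 * N / 16) / 4 ^ N) := by gcongr
      _ = Z * Real.exp (4 * s * L * k' + 3 * N / 16 - N * Real.log 4) := by
          rw [h4, Real.exp_sub, Real.exp_add]; ring
      _ ≤ Z * Real.exp (-2) := by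
          gcongr
          have := log_four_ge
          have hN0 : (0:ℝ) ≤ N := Nat.cast_nonneg _
          nlinarith
      _ ≤ Z / 4 := by
          have := exp_neg_two_le
          nlinarith
  -- a good configuration
  have hex : ∃ f : Fin t → Fin n → Fin q, (¬ ∃ p ∈ S1, E1 p f) ∧ (¬ ∃ K ∈ S2, E2 K f) ∧
      ¬ ∃ K ∈ S3, E3 K f := by
    by_contra hcon
    push Not at hcon
    have hsub : (univ : Finset (Fin t → Fin n → Fin q)) ⊆
        (univ.filter (fun f => ∃ p ∈ S1, E1 p f) ∪ univ.filter (fun f => ∃ K ∈ S2, E2 K f)) ∪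
          univ.filter (fun f => ∃ K ∈ S3, E3 K f) := by
      intro f _
      simp only [mem_union, mem_filter, mem_univ, true_and]
      by_cases h1 : ∃ p ∈ S1, E1 p f
      · exact Or.inl (Or.inl h1)
      · by_cases h2 : ∃ K ∈ S2, E2 K f
        · exact Or.inl (Or.inr h2)
        · push Not at h1 h2
          exact Or.inr (hcon f h1 h2)
    have h1 := card_le_card hsub
    have h2 := h1.trans ((card_union_le _ _).trans (Nat.add_le_add_right (card_union_le _ _) _))
    rw [card_univ] at h2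
    have h3 : Z ≤ Z / 4 + Z / 4 + Z / 4 := by
      rw [← hΩ]
      calc (Fintype.card (Fin t → Fin n → Fin q) : ℝ) ≤
          ((univ.filter (fun f => ∃ p ∈ S1, E1 p f)).card : ℝ) +
            ((univ.filter (fun f => ∃ K ∈ S2, E2 K f)).card : ℝ) +
            ((univ.filter (fun f => ∃ K ∈ S3, E3 K f)).card : ℝ) := by exact_mod_cast h2
        _ ≤ _ := by
          rw [hΩ]; gcongr
    linarith
  obtain ⟨f, hf1, hf2, hf3⟩ := hex
  push Not at hf1 hf2 hf3
  refine ⟨gr a b hab f, ?_, ?_, gr_covered a b hab f⟩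
  · refine cliqueFree_of a b hab f k k' (4 * s) hk' ?_ ?_
    · intro K hK
      have := hf2 K (mem_powersetCard.2 ⟨subset_univ _, hK⟩)
      simp only [hE2, not_le, hM] at this
      omega
    · intro K hK
      have := hf3 K (mem_powersetCard.2 ⟨subset_univ _, hK⟩)
      simpa only [hE3, not_le, hN] using this
  · refine (compl_cliqueFree_of a b hab f m ?_).mono h2m
    intro K L' hK hL' hKL
    have := hf1 (K, L') (mem_filter.2 ⟨mem_product.2 ⟨mem_powersetCard.2 ⟨subset_univ _, hK⟩,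
      mem_powersetCard.2 ⟨subset_univ _, hL'⟩⟩, hKL⟩)
    simp only [hE1, not_forall, not_not] at this
    exact this

end Pool.Agent.R70.BC
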