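import Mathlib
import Pool.Agent.R70.BC.Exist

/-! Asymptotic form of the lower bound. -/

set_option autoImplicit false

namespace Pool.Agent.R70.BC

open Finset Filter

lemma self_le_four_pow (s : ℕ) : s ≤ 4 ^ s := Nat.lt_pow_self (by norm_num) |>.le

set_option maxHeartbeats 1000000 in
theorem lower_s (s : ℕ) (hs : 1 ≤ s) : ∃ K : ℕ, ∀ k : ℕ, K ≤ k →
    ∃ (n : ℕ) (G : SimpleGraph (Fin n)) (t : ℕ), G.CliqueFree k ∧ Gᶜ.CliqueFree k ∧
      Covered G t ∧ (t : ℝ) ≤ Real.exp (8 * k / (2 ^ 14 * 64 ^ s)) ∧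
      2 * s * k / (2 ^ 14 * 64 ^ s) ≤ Real.log n := by
  set D : ℝ := 2 ^ 14 * 64 ^ s with hD
  have hD0 : 0 < D := by rw [hD]; positivity
  -- k ^ 3 + 10 ≤ exp (k / D) - exp(k/(2D)) eventually
  have h1 : ∀ᶠ k : ℕ in atTop, ((k:ℝ) + 10) ^ 3 ≤ Real.exp (k / (2 * D)) := by
    have hlim : Tendsto (fun k : ℕ => ((k:ℝ)) / (2 * D)) atTop atTop :=
      (tendsto_natCast_atTop_atTop).atTop_div_const (by positivity)
    have h2 := (Real.tendsto_pow_mul_exp_neg_atTop_nhds_zero 3).comp hlim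
    have h3 := h2.eventually (gt_mem_nhds (show (0:ℝ) < 1 / (8 * (2 * D) ^ 3) by positivity))
    filter_upwards [h3, eventually_ge_atTop 10] with k hk hk10
    simp only [Function.comp] at hk
    have hk10' : (10:ℝ) ≤ k := by exact_mod_cast hk10
    rw [Real.exp_neg, ← div_eq_mul_inv, div_lt_iff₀ (Real.exp_pos _)] at hk
    have h4 : ((k:ℝ) + 10) ^ 3 ≤ (2 * k) ^ 3 := by gcongr; linarith
    refine h4.trans ?_
    have h5 : (2 * (k:ℝ)) ^ 3 = (((k:ℝ)) / (2 * D)) ^ 3 * (8 * (2 * D) ^ 3) := by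
      field_simp; ring
    rw [h5]
    have h6 : 0 < 8 * (2 * D) ^ 3 := by positivity
    calc (((k:ℝ)) / (2 * D)) ^ 3 * (8 * (2 * D) ^ 3)
        ≤ (1 / (8 * (2 * D) ^ 3) * Real.exp (k / (2 * D))) * (8 * (2 * D) ^ 3) := by gcongr
      _ = Real.exp (k / (2 * D)) := by field_simp
  obtain ⟨K1, hK1⟩ := eventually_atTop.1 h1
  refine ⟨max K1 (max 100 (8 * 16 ^ s)), fun k hk => ?_⟩
  have hkK1 : K1 ≤ k := (le_max_left _ _).trans hk
  have hk100 : 100 ≤ k := (le_max_left _ _).trans ((le_max_right _ _).trans hk)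
  have hk16 : 8 * 16 ^ s ≤ k := (le_max_right _ _).trans ((le_max_right _ _).trans hk)
  have hcube := hK1 k hkK1
  have hk0 : (0:ℝ) < k := by
    have : 0 < k := by omega
    exact_mod_cast this
  have hk100' : (100:ℝ) ≤ k := by exact_mod_cast hk100
  set X : ℝ := Real.exp (k / D) with hX
  set Y : ℝ := Real.exp (k / (2 * D)) with hY
  have hXY : X = Y ^ 2 := by
    rw [hX, hY, ← Real.exp_nat_mul]; congr 1; push_cast; field_simp
  have hY10 : (k:ℝ) ^ 3 + 1000 ≤ Y := by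
    refine le_trans ?_ hcube
    nlinarith [mul_pos hk0 hk0]
  have hk3pos : 0 < (k:ℝ) ^ 3 := by positivity
  set u : ℕ := ⌊X / 2⌋₊ with hu
  have hX0 : 0 < X := Real.exp_pos _
  have hu1 : (u:ℝ) ≤ X / 2 := Nat.floor_le (by positivity)
  have hu2 : X / 2 < u + 1 := Nat.lt_floor_add_one _
  have hYX : Y ≤ 2 * u := by
    have : 1000 * Y ≤ X := by rw [hXY]; nlinarith
    nlinarith
  have hu4 : 4 ≤ u := by
    have : (4:ℝ) ≤ u := by linarith
    exact_mod_cast this
  have hupos : (0:ℝ) < u := by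
    have : (4:ℝ) ≤ u := by exact_mod_cast hu4
    linarith
  have hk3 : (k:ℝ) ^ 3 ≤ 2 * u := by linarith
  set L : ℝ := Real.log (2 * u) with hL
  have hL1 : L ≤ k / D := by
    rw [hL, Real.log_le_iff_le_exp (by positivity), ← hX]
    linarith
  have hL2 : k / (2 * D) ≤ L := by
    rw [hL, Real.le_log_iff_exp_le (by positivity), ← hY]
    exact hYX
  have hL0 : 0 ≤ L := le_trans (by positivity) hL2
  set m : ℕ := k / 2 with hm
  set k' : ℕ := k / 16 ^ s with hk'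
  have hmR : (k:ℝ) / 3 ≤ m := by
    have h2 : k ≤ 3 * m := by omega
    have : (k:ℝ) ≤ 3 * m := by exact_mod_cast h2
    linarith
  have hk'R1 : (k':ℝ) ≤ k / 16 ^ s := by
    have := @Nat.cast_div_le ℝ _ _ _ k (16 ^ s)
    rw [hk']; push_cast at this; exact this
  have hk'R2 : (k:ℝ) / (2 * 16 ^ s) ≤ k' := by
    have h2 : k < 16 ^ s * (k' + 1) := by
      rw [hk']; exact Nat.lt_mul_div_succ k (by positivity)
    have h2' : (k:ℝ) < 16 ^ s * (k' + 1) := by exact_mod_cast h2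
    have h3 : (8:ℝ) * 16 ^ s ≤ k := by exact_mod_cast hk16
    rw [div_le_iff₀ (by positivity)]
    nlinarith
  have hk'8 : 4 ≤ k' := by
    rw [hk', Nat.le_div_iff_mul_le (by positivity)]
    have : 4 * 16 ^ s ≤ 8 * 16 ^ s := by gcongr; norm_num
    omega
  have hs4 : (s:ℝ) ≤ 4 ^ s := by exact_mod_cast self_le_four_pow s
  have h64 : (64:ℝ) ^ s = 16 ^ s * 4 ^ s := by rw [← mul_pow]; norm_num
  have h16 : (1:ℝ) ≤ 16 ^ s := one_le_pow₀ (by norm_num)
  have hsR : (1:ℝ) ≤ s := by exact_mod_cast hs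
  have hDs : 2 ^ 14 * s * 16 ^ s ≤ D := by
    rw [hD, h64]
    have : (16:ℝ) ^ s * s ≤ 16 ^ s * 4 ^ s := by gcongr
    nlinarith
  obtain ⟨G, hG1, hG2, hG3⟩ := exists_good s u k m k' hu4 (by omega) hk3 (by omega) (by
      refine hk'R1.trans (le_of_eq ?_)
      rw [pow_mul, div_eq_mul_inv]; congr 1
      rw [← inv_pow]; norm_num) (by
      -- 8 s L m + 2 ≤ m² / 128
      rw [← hL]
      have hm0 : (0:ℝ) ≤ m := Nat.cast_nonneg _
      have e1 : 8 * s * L * m ≤ 8 * s * (k / D) * m := by gcongr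
      have e2 : 8 * s * (k / D) * m ≤ (m:ℝ) ^ 2 / 256 := by
        have e3 : s * (k / D) ≤ k / 2 ^ 14 := by
          rw [mul_div_assoc', div_le_div_iff₀ hD0 (by norm_num)]
          have : (2:ℝ) ^ 14 * s ≤ D := by
            refine le_trans ?_ hDs
            have : (2:ℝ) ^ 14 * s * 1 ≤ 2 ^ 14 * s * 16 ^ s := by gcongr
            linarith
          nlinarith
        have e4 : 8 * s * (k / D) * m ≤ 8 * (k / 2 ^ 14) * m := by
          have : 8 * (s * (k / D)) * m ≤ 8 * (k / 2 ^ 14) * m := by gcongr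
          linarith
        refine e4.trans ?_
        nlinarith only [hmR, hm0, mul_le_mul_of_nonneg_right hmR hm0]
      have e5 : 2 ≤ (m:ℝ) ^ 2 / 256 := by
        have h30 : (30:ℝ) ≤ m := by linarith
        rw [le_div_iff₀ (by norm_num)]
        nlinarith only [h30]
      linarith) (by
      rw [← hL]
      have hk0' : (4:ℝ) ≤ k' := by exact_mod_cast hk'8
      have e1 : 4 * s * L * k' ≤ 4 * s * (k / D) * k' := by gcongr
      have e2 : 4 * s * (k / D) * k' ≤ (k':ℝ) ^ 2 / 8 := by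
        have e3 : s * (k / D) ≤ (k:ℝ) / (2 ^ 14 * 16 ^ s) := by
          rw [mul_div_assoc', div_le_div_iff₀ hD0 (by positivity)]
          have := mul_le_mul_of_nonneg_left hDs hk0.le
          nlinarith
        have e3' : (k:ℝ) / (2 ^ 14 * 16 ^ s) = (k / (2 * 16 ^ s)) / 2 ^ 13 := by
          field_simp
          try norm_num
        have e4 : s * (k / D) ≤ k' / 2 ^ 13 := by
          refine e3.trans ?_
          rw [e3']; gcongr
        have e5 : 4 * (s * (k / D)) * k' ≤ 4 * (k' / 2 ^ 13) * k' := by gcongr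
        nlinarith
      rw [Nat.cast_choose_two]
      nlinarith)
  refine ⟨_, G, _, hG1, hG2, hG3, ?_, ?_⟩
  · push_cast
    have e1 : (8:ℝ) * u ^ 8 ≤ X ^ 8 := by
      have : (u:ℝ) ^ 8 ≤ (X / 2) ^ 8 := by gcongr
      have h8 : (X / 2) ^ 8 = X ^ 8 / 256 := by ring
      have : 0 < X ^ 8 := by positivity
      linarith
    refine e1.trans (le_of_eq ?_)
    rw [hX, ← Real.exp_nat_mul]; congr 1; push_cast; ring
  · push_cast
    rw [Real.log_pow, ← hL]
    push_cast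
    calc 2 * (s:ℝ) * k / D = 4 * s * (k / (2 * D)) := by field_simp; ring
      _ ≤ 4 * s * L := by gcongr

/-- adding empty complete bipartite graphs -/
lemma Covered.mono {V : Type*} {G : SimpleGraph V} {t t' : ℕ} (h : Covered G t) (ht : t ≤ t') :
    Covered G t' := by
  obtain ⟨A, B, h1, h2⟩ := h
  refine ⟨fun i => if hi : i.1 < t then A ⟨i.1, hi⟩ else ∅,
    fun i => if hi : i.1 < t then B ⟨i.1, hi⟩ else ∅, ?_, ?_⟩
  · intro i a ha b hb
    by_cases hi : i.1 < t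
    · simp only [hi, dite_true] at ha hb
      exact h1 _ a ha b hb
    · simp [hi] at ha
  · intro u v huv
    obtain ⟨i, hi⟩ := h2 u v huv
    exact ⟨⟨i.1, i.2.trans_le ht⟩, by simpa using hi⟩

/-- the lower bound on the growth rate -/
theorem lower : ∀ ε : ℝ, 0 < ε → ε ≤ 1 / 2 ^ 22 → ∃ K : ℕ, ∀ k : ℕ, K ≤ k →
    ∃ (n : ℕ) (G : SimpleGraph (Fin n)), G.CliqueFree k ∧ Gᶜ.CliqueFree k ∧
      Covered G ⌊Real.exp (ε * k)⌋₊ ∧ 1 / 2400 * (ε * Real.log (2 / ε)) * k ≤ Real.log n := by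
  intro ε hε hε2
  have hl64 : 0 < Real.log 64 := Real.log_pos (by norm_num)
  -- s = least natural with 64 ^ s ≥ 1 / (2 ^ 11 ε)
  set s : ℕ := ⌈Real.log (1 / (2 ^ 11 * ε)) / Real.log 64⌉₊ with hs
  have h1 : Real.log (1 / (2 ^ 11 * ε)) / Real.log 64 ≤ s := Nat.le_ceil _
  have hbig : (2:ℝ) ^ 11 ≤ 1 / (2 ^ 11 * ε) := by
    rw [le_div_iff₀ (by positivity)]
    calc (2:ℝ) ^ 11 * (2 ^ 11 * ε) ≤ 2 ^ 11 * (2 ^ 11 * (1 / 2 ^ 22)) := by gcongr
      _ = 1 := by norm_num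
  have hlogbig : 0 < Real.log (1 / (2 ^ 11 * ε)) := Real.log_pos (by linarith [show (1:ℝ) < 2 ^ 11 by norm_num])
  have h2 : (s:ℝ) < Real.log (1 / (2 ^ 11 * ε)) / Real.log 64 + 1 :=
    Nat.ceil_lt_add_one (by positivity)
  have hs1 : 1 ≤ s := by
    rw [hs, Nat.one_le_ceil_iff]; positivity
  have hpow1 : 1 / (2 ^ 11 * ε) ≤ (64:ℝ) ^ s := by
    rw [← Real.log_le_log_iff (by positivity) (by positivity), Real.log_pow]
    rw [div_le_iff₀ hl64] at h1
    exact h1
  have hpow2 : (64:ℝ) ^ s ≤ 64 / (2 ^ 11 * ε) := by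
    rw [← Real.log_le_log_iff (by positivity) (by positivity), Real.log_pow,
      div_eq_mul_one_div 64, Real.log_mul (by norm_num) (by positivity)]
    have h3 : ((s:ℝ) - 1) < Real.log (1 / (2 ^ 11 * ε)) / Real.log 64 := by linarith
    rw [lt_div_iff₀ hl64] at h3
    linarith
  obtain ⟨K, hK⟩ := lower_s s hs1
  refine ⟨K, fun k hk => ?_⟩
  obtain ⟨n, G, t, hG1, hG2, hG3, ht, hn⟩ := hK k hk
  have hk0 : (0:ℝ) ≤ k := Nat.cast_nonneg _
  have ht2 : (t:ℝ) ≤ Real.exp (ε * k) := by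
    refine ht.trans (Real.exp_le_exp.2 ?_)
    rw [div_le_iff₀ (by positivity)]
    rw [div_le_iff₀ (by positivity)] at hpow1
    nlinarith
  refine ⟨n, G, hG1, hG2, hG3.mono (Nat.le_floor ht2), ?_⟩
  refine le_trans ?_ hn
  rw [le_div_iff₀ (by positivity)]
  have hs2 : Real.log (2 / ε) / 9 ≤ s := by
    refine le_trans ?_ h1
    rw [div_le_div_iff₀ (by norm_num) hl64]
    -- log(2/ε) ≤ 23/11 * log (1/(2^11 ε)) and log 64 ≤ 4.16
    have e1 : Real.log 64 ≤ 4.16 := by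
      rw [show (64:ℝ) = 2 ^ 6 by norm_num, Real.log_pow]
      have := Real.log_two_lt_d9
      push_cast; linarith
    have e2 : Real.log (2 / ε) = Real.log (1 / (2 ^ 11 * ε)) + 12 * Real.log 2 := by
      have : (2:ℝ) / ε = 1 / (2 ^ 11 * ε) * 2 ^ 12 := by
        field_simp
        try norm_num
      rw [this, Real.log_mul (by positivity) (by positivity), Real.log_pow]
      try norm_num
    have e3 : 11 * Real.log 2 ≤ Real.log (1 / (2 ^ 11 * ε)) := by
      have : Real.log (2 ^ 11) ≤ Real.log (1 / (2 ^ 11 * ε)) :=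
        Real.log_le_log (by positivity) hbig
      rw [Real.log_pow] at this
      push_cast at this; exact this
    rw [e2]
    have hl2 : 0 < Real.log 2 := Real.log_pos (by norm_num)
    nlinarith
  have hle : 0 ≤ Real.log (2 / ε) := by
    apply Real.log_nonneg
    rw [le_div_iff₀ hε]
    have : ε ≤ 1 := hε2.trans (by norm_num)
    linarith
  have h64e : (64:ℝ) ^ s * ε ≤ 1 / 32 := by
    rw [le_div_iff₀ (by positivity)] at hpow2
    nlinarith
  calc 1 / 2400 * (ε * Real.log (2 / ε)) * k * (2 ^ 14 * 64 ^ s)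
      = (2 ^ 14 / 2400) * (64 ^ s * ε) * (Real.log (2 / ε) * k) := by ring
    _ ≤ (2 ^ 14 / 2400) * (1 / 32) * (Real.log (2 / ε) * k) := by gcongr
    _ ≤ 2 * (Real.log (2 / ε) / 9) * k := by
        have : 0 ≤ Real.log (2 / ε) * k := by positivity
        nlinarith
    _ ≤ 2 * s * k := by gcongr

end Pool.Agent.R70.BC
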