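import Mathlib
import Pool.Agent.R70.BC.Upper

/-! Real-variable forms of the upper bound. -/

set_option autoImplicit false

namespace Pool.Agent.R70.BC

open Finset Filter

lemma log_choose_le (a b : ℕ) (x : ℝ) (hx : 0 < x) :
    Real.log ((a + b).choose a) ≤ a * Real.log (1 / x) + (a + b) * x := by
  have h1 : ((a + b).choose a : ℝ) * x ^ a ≤ (1 + x) ^ (a + b) := by
    rw [add_comm 1 x, add_pow]
    have := Finset.single_le_sum (f := fun m => x ^ m * (1:ℝ) ^ (a + b - m) * ((a + b).choose m))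
      (s := range (a + b + 1)) (fun m _ => by positivity) (mem_range.2 (by omega : a < a + b + 1))
    simp only [one_pow, mul_one] at this ⊢
    linarith
  have hc : (0:ℝ) < (a + b).choose a := by
    exact_mod_cast Nat.choose_pos (by omega)
  have h2 : Real.log (((a + b).choose a : ℝ) * x ^ a) ≤ (a + b) * x := by
    calc Real.log (((a + b).choose a : ℝ) * x ^ a) ≤ Real.log ((1 + x) ^ (a + b)) :=
          Real.log_le_log (by positivity) h1
      _ = (a + b) * Real.log (1 + x) := by rw [Real.log_pow]; push_cast; ring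
      _ ≤ (a + b) * x := by
          gcongr
          have := Real.log_le_sub_one_of_pos (show 0 < 1 + x by linarith)
          linarith
  rw [Real.log_mul hc.ne' (by positivity), Real.log_pow] at h2
  have h3 : Real.log (1 / x) = - Real.log x := by rw [one_div, Real.log_inv]
  rw [h3]
  linarith

/-- logarithmic form of the finite bound -/
lemma upper_real {n : ℕ} (G : SimpleGraph (Fin n)) {t k j : ℕ} (hn : 1 ≤ n) (hG : Covered G t)
    (h1 : G.CliqueFree k) (h2 : Gᶜ.CliqueFree k) (hj : 2 ^ j < k) :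
    Real.log n ≤ j * Real.log (t + 1) + ((k:ℝ) - 1) / 2 ^ j * (j * Real.log 2) +
      (((k:ℝ) - 1) / 2 ^ j + (k - 1)) / 2 ^ j := by
  have h0j : 0 < 2 ^ j := by positivity
  obtain ⟨b, rfl⟩ : ∃ b, k = b + 1 := ⟨k - 1, by omega⟩
  have h3 := upper G hG h1 h2 (show 2 ^ j ≤ b by omega)
  have hb : ((b + 1 : ℕ) : ℝ) - 1 = b := by push_cast; ring
  rw [hb]
  set a := b / 2 ^ j with ha
  have haR : (a:ℝ) ≤ b / 2 ^ j := by
    have := @Nat.cast_div_le ℝ _ _ _ b (2 ^ j)
    push_cast at this; exact this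
  have hc : (0:ℝ) < (a + b).choose a := by
    exact_mod_cast Nat.choose_pos (by omega)
  have h4 : (n:ℝ) ≤ ((t:ℝ) + 1) ^ j * ((a + b).choose a : ℝ) := by exact_mod_cast h3
  have hn0 : (0:ℝ) < n := by exact_mod_cast hn
  have h5 := Real.log_le_log hn0 h4
  rw [Real.log_mul (by positivity) hc.ne', Real.log_pow] at h5
  have h6 := log_choose_le a b (1 / 2 ^ j) (by positivity)
  have h7 : Real.log (1 / (1 / 2 ^ j)) = j * Real.log 2 := by
    rw [one_div_one_div, Real.log_pow]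
  rw [h7] at h6
  have hl2 : 0 < Real.log 2 := Real.log_pos (by norm_num)
  have h8 : (a:ℝ) * (j * Real.log 2) ≤ b / 2 ^ j * (j * Real.log 2) := by gcongr
  have h9 : ((a:ℝ) + b) * (1 / 2 ^ j) ≤ ((b:ℝ) / 2 ^ j + b) / 2 ^ j := by
    rw [mul_one_div]; gcongr
  linarith

lemma upper_real' {n : ℕ} (G : SimpleGraph (Fin n)) {t k j : ℕ} (hn : 1 ≤ n) (hG : Covered G t)
    (h1 : G.CliqueFree k) (h2 : Gᶜ.CliqueFree k) (hj : 2 ^ j < k) :
    Real.log n ≤ j * Real.log (t + 1) + k / 2 ^ j * (j * Real.log 2 + 2) := by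
  have h := upper_real G hn hG h1 h2 hj
  have hk0 : (0:ℝ) ≤ k := Nat.cast_nonneg _
  have hl2 : 0 < Real.log 2 := Real.log_pos (by norm_num)
  have h2j : (1:ℝ) ≤ 2 ^ j := one_le_pow₀ (by norm_num)
  have e1 : ((k:ℝ) - 1) / 2 ^ j * (j * Real.log 2) ≤ k / 2 ^ j * (j * Real.log 2) := by
    gcongr; linarith
  have e2 : (((k:ℝ) - 1) / 2 ^ j + (k - 1)) / 2 ^ j ≤ (k + k) / 2 ^ j := by
    gcongr
    · calc ((k:ℝ) - 1) / 2 ^ j ≤ k / 2 ^ j := by gcongr; linarith
        _ ≤ k := div_le_self hk0 h2j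
    · linarith
  have e3 : ((k:ℝ) + k) / 2 ^ j = k / 2 ^ j * 2 := by ring
  rw [e3] at e2
  linarith

/-- upper bound on the growth rate -/
theorem growth_upper : ∀ ε : ℝ, 0 < ε → ε ≤ 1 → ∃ K : ℕ, ∀ k : ℕ, K ≤ k →
    ∀ (n t : ℕ) (G : SimpleGraph (Fin n)), G.CliqueFree k → Gᶜ.CliqueFree k → Covered G t →
      (t:ℝ) ≤ Real.exp (ε * k) → Real.log n ≤ 6 * (ε * Real.log (2 / ε)) * k := by
  intro ε hε hε1
  have hl2 : 0 < Real.log 2 := Real.log_pos (by norm_num)
  have hl2' := Real.log_two_gt_d9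
  have hl2'' := Real.log_two_lt_d9
  have hlog : 0 ≤ Real.log (1 / ε) := Real.log_nonneg (by rw [le_div_iff₀ hε]; linarith)
  have hlog2 : Real.log (2 / ε) = Real.log 2 + Real.log (1 / ε) := by
    rw [div_eq_mul_one_div 2, Real.log_mul (by norm_num) (by positivity)]
  set j : ℕ := ⌈Real.log (1 / ε) / Real.log 2⌉₊ with hj
  have hj1 : Real.log (1 / ε) / Real.log 2 ≤ j := Nat.le_ceil _
  have hj2 : (j:ℝ) < Real.log (1 / ε) / Real.log 2 + 1 := Nat.ceil_lt_add_one (by positivity)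
  have hj3 : (j:ℝ) * Real.log 2 ≤ Real.log (2 / ε) := by
    have : (j:ℝ) * Real.log 2 ≤ (Real.log (1 / ε) / Real.log 2 + 1) * Real.log 2 := by gcongr
    rw [add_mul, div_mul_cancel₀ _ hl2.ne'] at this
    linarith
  have hpow : 1 / ε ≤ (2:ℝ) ^ j := by
    rw [← Real.log_le_log_iff (by positivity) (by positivity), Real.log_pow]
    rwa [div_le_iff₀ hl2] at hj1
  obtain ⟨K, hK⟩ := exists_nat_gt ((2:ℝ) ^ j + 2 / ε)
  refine ⟨K, fun k hk n t G h1 h2 hG ht => ?_⟩
  have hkK : (K:ℝ) ≤ k := by exact_mod_cast hk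
  have h2ε : 0 < 2 / ε := by positivity
  have hk1 : (2:ℝ) ^ j < k := by linarith
  have hk2 : 2 / ε ≤ k := by
    have : (0:ℝ) < 2 ^ j := by positivity
    linarith
  have hkj : 2 ^ j < k := by exact_mod_cast hk1
  have hk0 : (0:ℝ) < k := lt_of_lt_of_le h2ε hk2
  have hlε : 0 < Real.log (2 / ε) := by rw [hlog2]; linarith
  rcases Nat.eq_zero_or_pos n with hn | hn
  · subst hn
    simp only [Nat.cast_zero, Real.log_zero]
    positivity
  have h := upper_real' G hn hG h1 h2 hkj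
  have hlt : Real.log (t + 1) ≤ ε * k + Real.log 2 := by
    have h1e : (1:ℝ) ≤ Real.exp (ε * k) := Real.one_le_exp (by positivity)
    calc Real.log (t + 1) ≤ Real.log (Real.exp (ε * k) * 2) :=
          Real.log_le_log (by positivity) (by linarith)
      _ = ε * k + Real.log 2 := by
          rw [Real.log_mul (Real.exp_pos _).ne' (by norm_num), Real.log_exp]
  have h3 : (j:ℝ) * Real.log (t + 1) ≤ j * (ε * k + Real.log 2) := by gcongr
  have h4 : (k:ℝ) / 2 ^ j ≤ ε * k := by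
    rw [div_le_iff₀ (by positivity)]
    rw [div_le_iff₀ hε] at hpow
    nlinarith
  have h5 : (k:ℝ) / 2 ^ j * (j * Real.log 2 + 2) ≤ ε * k * (Real.log (2 / ε) + 2) := by
    gcongr
  have hεk : 2 ≤ ε * k := by
    rw [div_le_iff₀ hε] at hk2; linarith
  -- j ε k ≤ log(2/ε)/log 2 ε k
  have h6 : (j:ℝ) ≤ 1.4428 * Real.log (2 / ε) := by
    have : (j:ℝ) * 0.6931471803 ≤ Real.log (2 / ε) := by
      have : (j:ℝ) * 0.6931471803 ≤ j * Real.log 2 := by gcongr
      linarith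
    nlinarith
  have h7 : (0.6931:ℝ) ≤ Real.log (2 / ε) := by rw [hlog2]; linarith
  have hj0 : (0:ℝ) ≤ j := Nat.cast_nonneg _
  have h8 : (j:ℝ) * (ε * k) ≤ 1.4428 * Real.log (2 / ε) * (ε * k) := by gcongr
  have h9 : (j:ℝ) * Real.log 2 ≤ Real.log (2 / ε) * (ε * k) / 2 := by
    nlinarith [mul_le_mul_of_nonneg_left hεk hlε.le]
  have h10 : ε * k * 2 ≤ 2.886 * Real.log (2 / ε) * (ε * k) := by nlinarith
  nlinarith [mul_nonneg hlε.le (by positivity : (0:ℝ) ≤ ε * k)]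

/-- near-extremal colourings need many complete bipartite graphs -/
theorem many_needed : ∀ θ : ℝ, 0 < θ → θ ≤ 1 → ∃ K : ℕ, ∀ k : ℕ, K ≤ k →
    ∀ (n t : ℕ) (G : SimpleGraph (Fin n)), G.CliqueFree k → Gᶜ.CliqueFree k → Covered G t →
      Real.exp (θ * k) ≤ n → (n:ℝ) ^ (1 / (24 * Real.log (2 / θ))) ≤ t + 1 := by
  intro θ hθ hθ1
  have hl2 : 0 < Real.log 2 := Real.log_pos (by norm_num)
  have hl2' := Real.log_two_gt_d9
  have hl2'' := Real.log_two_lt_d9
  have h2θ : (2:ℝ) ≤ 2 / θ := by rw [le_div_iff₀ hθ]; linarith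
  have hlθ : Real.log 2 ≤ Real.log (2 / θ) := Real.log_le_log (by norm_num) h2θ
  set i : ℕ := ⌈Real.log (2 / θ) / Real.log 2⌉₊ with hi
  have hi1 : Real.log (2 / θ) / Real.log 2 ≤ i := Nat.le_ceil _
  have hl0 : 0 ≤ Real.log (2 / θ) := by linarith
  have hi2 : (i:ℝ) < Real.log (2 / θ) / Real.log 2 + 1 := Nat.ceil_lt_add_one (by positivity)
  set r : ℝ := 2 ^ i with hr
  have hpow : 2 / θ ≤ r := by
    have hx : 2 / θ ≤ (2:ℝ) ^ i := by
      rw [← Real.log_le_log_iff (by positivity) (by positivity), Real.log_pow]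
      rwa [div_le_iff₀ hl2] at hi1
    rw [hr]; exact hx
  have hr2 : 2 ≤ r := h2θ.trans hpow
  obtain ⟨K, hK⟩ := exists_nat_gt ((2:ℝ) ^ (4 * i))
  refine ⟨K, fun k hk n t G h1 h2 hG hn => ?_⟩
  have hkK : (K:ℝ) ≤ k := by exact_mod_cast hk
  have hkj : 2 ^ (4 * i) < k := by
    have : (2:ℝ) ^ (4 * i) < k := by linarith
    exact_mod_cast this
  have hk0 : (0:ℝ) < k := by
    have : 0 < k := lt_of_le_of_lt (Nat.zero_le _) hkj
    exact_mod_cast this
  have hnR : (1:ℝ) ≤ n := le_trans (Real.one_le_exp (by positivity)) hn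
  have hn1 : 1 ≤ n := by exact_mod_cast hnR
  have h := upper_real' G hn1 hG h1 h2 hkj
  have hlogn : θ * k ≤ Real.log n := by
    rw [Real.le_log_iff_exp_le (by linarith)]; exact hn
  have hlr : Real.log r ≤ r - 1 := Real.log_le_sub_one_of_pos (by linarith)
  have hjr : ((4 * i : ℕ) : ℝ) * Real.log 2 = 4 * Real.log r := by
    rw [hr, Real.log_pow]; push_cast; ring
  have h3 : (k:ℝ) / 2 ^ (4 * i) * (((4 * i : ℕ) : ℝ) * Real.log 2 + 2) ≤ Real.log n / 2 := by
    rw [hjr]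
    have e1 : (2:ℝ) ^ (4 * i) = r ^ 4 := by rw [hr, ← pow_mul]; congr 1; ring
    rw [e1]
    have e2 : 4 * Real.log r + 2 ≤ r ^ 3 := by nlinarith [mul_self_nonneg (r - 2), mul_pos (by linarith : (0:ℝ) < r) (by linarith : (0:ℝ) < r)]
    have e3 : (k:ℝ) / r ^ 4 * (4 * Real.log r + 2) ≤ k / r ^ 4 * r ^ 3 := by gcongr
    refine e3.trans ?_
    have e4 : (k:ℝ) / r ^ 4 * r ^ 3 = k / r := by field_simp
    rw [e4, div_le_iff₀ (by linarith)]
    have e5 : 2 ≤ θ * r := by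
      rw [div_le_iff₀ hθ] at hpow; linarith
    nlinarith
  have h4 : Real.log n ≤ 2 * ((4 * i : ℕ) : ℝ) * Real.log (t + 1) := by linarith
  have hlt : 0 ≤ Real.log ((t:ℝ) + 1) := Real.log_nonneg (by
    have : (0:ℝ) ≤ t := Nat.cast_nonneg _
    linarith)
  have hi3 : (i:ℝ) ≤ 2 * (Real.log (2 / θ) / Real.log 2) := by
    have : 1 ≤ Real.log (2 / θ) / Real.log 2 := by rw [one_le_div hl2]; exact hlθ
    linarith
  have hi4 : (8:ℝ) * i ≤ 24 * Real.log (2 / θ) := by
    have h5 : Real.log (2 / θ) / Real.log 2 ≤ 1.5 * Real.log (2 / θ) := by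
      rw [div_le_iff₀ hl2]
      nlinarith
    linarith
  have h5 : Real.log n ≤ 24 * Real.log (2 / θ) * Real.log (t + 1) := by
    calc Real.log n ≤ 2 * ((4 * i : ℕ) : ℝ) * Real.log (t + 1) := h4
      _ = 8 * i * Real.log (t + 1) := by push_cast; ring
      _ ≤ 24 * Real.log (2 / θ) * Real.log (t + 1) := by gcongr
  have hpos : 0 < 24 * Real.log (2 / θ) := by linarith
  rw [← Real.log_le_log_iff (by positivity) (by positivity), Real.log_rpow (by linarith)]
  rw [one_div, inv_mul_le_iff₀ hpos]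
  exact h5

/-- explicit form -/
theorem eighth_power {n k t : ℕ} (G : SimpleGraph (Fin n)) (hk : 65 ≤ k) (h1 : G.CliqueFree k)
    (h2 : Gᶜ.CliqueFree k) (hn : (2:ℝ) ^ ((k:ℝ) / 2) ≤ n) (hG : Covered G t) :
    n ≤ (t + 1) ^ 8 := by
  have hl2' := Real.log_two_gt_d9
  have hl2'' := Real.log_two_lt_d9
  have hkR : (65:ℝ) ≤ k := by exact_mod_cast hk
  have hn0 : (0:ℝ) < n := lt_of_lt_of_le (by positivity) hn
  have hn1 : 1 ≤ n := by
    have : 0 < n := by exact_mod_cast hn0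
    omega
  have h := upper_real G hn1 hG h1 h2 (j := 6) (by omega)
  have hlogn : (k:ℝ) / 2 * Real.log 2 ≤ Real.log n := by
    have := Real.log_le_log (by positivity) hn
    rwa [Real.log_rpow (by norm_num)] at this
  have h3 : Real.log n ≤ 8 * Real.log (t + 1) := by
    norm_num at h
    nlinarith
  have h4 : (n:ℝ) ≤ ((t:ℝ) + 1) ^ 8 := by
    rw [← Real.log_le_log_iff hn0 (by positivity), Real.log_pow]
    push_cast; exact h3
  exact_mod_cast h4

end Pool.Agent.R70.BC
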