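import Mathlib
import Pool.Agent.R70.BC.Upper
import Pool.Agent.R70.BC.UpperAsym

/-! Intersection graphs of boxes: the upper bound. -/

set_option autoImplicit false

namespace Pool.Agent.R70.BC

open Finset

variable {V : Type*} [DecidableEq V]

/-- one coordinate: two sets with small cliques whose removal leaves intervals with a common
point -/
lemma cut (G : SimpleGraph V) (l r : V → ℝ) (x : ℕ) (S : Finset V)
    (hred : ∀ u ∈ S, ∀ v ∈ S, r u < l v → G.Adj u v) (hx : CB G S x) :
    ∃ U₁ U₂ : Finset V, U₁ ⊆ S ∧ U₂ ⊆ S ∧ CB G U₁ (x / 2) ∧ CB G U₂ (x / 2) ∧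
      ∀ u ∈ S \ (U₁ ∪ U₂), ∀ v ∈ S \ (U₁ ∪ U₂), ¬ r u < l v := by
  classical
  set T := S.filter (fun v => ¬ CB G (S.filter (fun u => r u ≤ r v)) (x / 2)) with hT
  rcases T.eq_empty_or_nonempty with hTe | hTn
  · refine ⟨S, ∅, Finset.Subset.refl _, empty_subset _, ?_, ?_, by simp⟩
    · rcases S.eq_empty_or_nonempty with hS | hS
      · subst hS
        intro C hC _
        rw [subset_empty.1 hC]; simp
      · obtain ⟨v, hv, hmax⟩ := exists_max_image S r hS
        have hvT : v ∉ T := by rw [hTe]; simp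
        have h1 : CB G (S.filter (fun u => r u ≤ r v)) (x / 2) := by
          by_contra hcon
          exact hvT (mem_filter.2 ⟨hv, hcon⟩)
        exact h1.mono (fun u hu => mem_filter.2 ⟨hu, hmax u hu⟩)
    · intro C hC _
      rw [subset_empty.1 hC]; simp
  · obtain ⟨w, hw, hmin⟩ := exists_min_image T r hTn
    obtain ⟨hwS, hwB⟩ := mem_filter.1 hw
    refine ⟨S.filter (fun u => r u < r w), S.filter (fun u => r w < l u), filter_subset _ _,
      filter_subset _ _, ?_, ?_, ?_⟩
    · rcases (S.filter (fun u => r u < r w)).eq_empty_or_nonempty with hS | hS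
      · rw [hS]
        intro C hC _
        rw [subset_empty.1 hC]; simp
      · obtain ⟨v, hv, hmax⟩ := exists_max_image _ r hS
        obtain ⟨hvS, hvw⟩ := mem_filter.1 hv
        have hvT : v ∉ T := fun h => absurd (hmin v h) (not_le.2 hvw)
        have h1 : CB G (S.filter (fun u => r u ≤ r v)) (x / 2) := by
          by_contra hcon
          exact hvT (mem_filter.2 ⟨hvS, hcon⟩)
        exact h1.mono (fun u hu => mem_filter.2 ⟨(mem_filter.1 hu).1, hmax u hu⟩)
    · by_contra hB
      unfold CB at hwB hB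
      push Not at hwB hB
      obtain ⟨C, hC, hC1, hC2⟩ := hwB
      obtain ⟨D, hD, hD1, hD2⟩ := hB
      have hCD : ∀ a ∈ C, ∀ b ∈ D, G.Adj a b := by
        intro a ha b hb
        obtain ⟨ha1, ha2⟩ := mem_filter.1 (hC ha)
        obtain ⟨hb1, hb2⟩ := mem_filter.1 (hD hb)
        exact hred a ha1 b hb1 (lt_of_le_of_lt ha2 hb2)
      have hdisj : Disjoint C D := by
        rw [Finset.disjoint_left]
        intro a ha hb
        exact G.loopless.irrefl a (hCD a ha a hb)
      have := hx (C ∪ D) (union_subset (hC.trans (filter_subset _ _))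
        (hD.trans (filter_subset _ _))) ?_
      · rw [card_union_of_disjoint hdisj] at this; omega
      · intro a ha b hb hab
        simp only [coe_union, Set.mem_union, mem_coe] at ha hb
        rcases ha with ha | ha <;> rcases hb with hb | hb
        · exact hC1 ha hb hab
        · exact hCD a ha b hb
        · exact (hCD b hb a ha).symm
        · exact hD1 ha hb hab
    · intro u hu v hv huv
      simp only [mem_sdiff, mem_union, mem_filter, not_or, not_and, not_lt] at hu hv
      have h1 := hu.2.1 hu.1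
      have h2 := hv.2.2 hv.1
      linarith

/-- one halving step for boxes -/
lemma bstep (G : SimpleGraph V) {ι : Type*} [DecidableEq ι] (l r : V → ι → ℝ)
    (hred : ∀ i u v, r u i < l v i → G.Adj u v) (x y F : ℕ)
    (hF : ∀ U : Finset V, CB G U (x / 2) → CB Gᶜ U y → U.card ≤ F) :
    ∀ (I : Finset ι) (S : Finset V), CB G S x → CB Gᶜ S y →
      (∀ u ∈ S, ∀ v ∈ S, G.Adj u v → ∃ i ∈ I, r u i < l v i ∨ r v i < l u i) →
      S.card ≤ y + I.card * (2 * F) := by
  classical
  intro I
  induction I using Finset.induction_on with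
  | empty =>
    intro S _ hy h
    simp only [card_empty, zero_mul, add_zero]
    refine hy S (Finset.Subset.refl _) ?_
    intro u hu v hv huv
    rw [SimpleGraph.compl_adj]
    refine ⟨huv, fun hadj => ?_⟩
    obtain ⟨i, hi, _⟩ := h u hu v hv hadj
    simp at hi
  | insert i I hi ih =>
    intro S hx hy h
    obtain ⟨U₁, U₂, hU₁S, hU₂S, hU₁, hU₂, hcov⟩ := cut G (fun v => l v i) (fun v => r v i) x S
      (fun u _ v _ huv => hred i u v huv) hx
    have h1 := hF U₁ hU₁ (hy.mono hU₁S)
    have h1' := hF U₂ hU₂ (hy.mono hU₂S)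
    have h2 := ih (S \ (U₁ ∪ U₂)) (hx.mono sdiff_subset) (hy.mono sdiff_subset) (by
      intro u hu v hv hadj
      obtain ⟨j, hj, hj2⟩ := h u (mem_sdiff.1 hu).1 v (mem_sdiff.1 hv).1 hadj
      rcases mem_insert.1 hj with rfl | hj
      · rcases hj2 with hj2 | hj2
        · exact absurd hj2 (hcov u hu v hv)
        · exact absurd hj2 (hcov v hv u hu)
      · exact ⟨j, hj, hj2⟩)
    have h3 : S.card ≤ (S \ (U₁ ∪ U₂)).card + (U₁.card + U₂.card) := by
      calc S.card ≤ ((S \ (U₁ ∪ U₂)) ∪ (U₁ ∪ U₂)).card := card_le_card (by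
            intro v hv
            by_cases hvU : v ∈ U₁ ∪ U₂
            · exact mem_union_right _ hvU
            · exact mem_union_left _ (mem_sdiff.2 ⟨hv, hvU⟩))
        _ ≤ (S \ (U₁ ∪ U₂)).card + (U₁ ∪ U₂).card := card_union_le _ _
        _ ≤ (S \ (U₁ ∪ U₂)).card + (U₁.card + U₂.card) := by
            gcongr; exact card_union_le _ _
    rw [card_insert_of_notMem hi]
    nlinarith

/-- `G` is the disjointness graph of boxes in dimension `t` -/
def BoxDisj {V : Type*} (G : SimpleGraph V) (t : ℕ) : Prop :=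
  ∃ l r : V → Fin t → ℝ, (∀ i u v, r u i < l v i → G.Adj u v) ∧
    ∀ u v, G.Adj u v → ∃ i, r u i < l v i ∨ r v i < l u i

lemma cb_of {n : ℕ} (H : SimpleGraph (Fin n)) (z : ℕ) (hz : H.CliqueFree (z + 1)) :
    CB H univ z := by
  intro C _ hC
  by_contra hlt
  obtain ⟨D, hD1, hD2⟩ := Finset.exists_subset_card_eq (show z + 1 ≤ C.card by omega)
  exact hz D ⟨hC.subset (by exact_mod_cast hD1), hD2⟩

theorem bupper {n : ℕ} (G : SimpleGraph (Fin n)) {t x y j : ℕ} (hG : BoxDisj G t)
    (hx : G.CliqueFree (x + 1)) (hy : Gᶜ.CliqueFree (y + 1)) (hj : 2 ^ j ≤ x) :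
    n ≤ (2 * t + 1) ^ j * (x / 2 ^ j + y).choose (x / 2 ^ j) := by
  obtain ⟨l, r, hred, hcov⟩ := hG
  have main : ∀ (j x : ℕ) (S : Finset (Fin n)), 2 ^ j ≤ x → CB G S x → CB Gᶜ S y →
      S.card ≤ (2 * t + 1) ^ j * (x / 2 ^ j + y).choose (x / 2 ^ j) := by
    intro j
    induction j with
    | zero =>
      intro x S _ hx hy
      have := es G (x + y) x y rfl S hx hy
      simp only [pow_zero, Nat.div_one, one_mul]
      omega
    | succ j ih =>
      intro x S hjx hx hy
      have hj2 : 2 ^ j ≤ x / 2 := by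
        rw [Nat.le_div_iff_mul_le (by norm_num)]
        calc 2 ^ j * 2 = 2 ^ (j + 1) := by ring
          _ ≤ x := hjx
      have hdiv : x / 2 / 2 ^ j = x / 2 ^ (j + 1) := by
        rw [Nat.div_div_eq_div_mul]; congr 1; ring
      set F := (2 * t + 1) ^ j * (x / 2 / 2 ^ j + y).choose (x / 2 / 2 ^ j) with hFdef
      have h1 := bstep G l r hred x y F (fun U hU1 hU2 => ih (x / 2) U hj2 hU1 hU2) univ S hx hy
        (fun u _ v _ h => by obtain ⟨i, hi⟩ := hcov u v h; exact ⟨i, mem_univ _, hi⟩)
      rw [card_univ, Fintype.card_fin] at h1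
      have ha : 1 ≤ x / 2 / 2 ^ j := by
        rw [Nat.one_le_div_iff (by positivity)]; exact hj2
      have h2 : y ≤ F := by
        calc y ≤ (x / 2 / 2 ^ j + y).choose (x / 2 / 2 ^ j) := le_choose_aux ha
          _ ≤ F := Nat.le_mul_of_pos_left _ (by positivity)
      calc S.card ≤ y + t * (2 * F) := h1
        _ ≤ F + t * (2 * F) := by gcongr
        _ = (2 * t + 1) ^ (j + 1) * (x / 2 ^ (j + 1) + y).choose (x / 2 ^ (j + 1)) := by
          rw [hFdef, hdiv]; ring
  have := main j x univ hj (cb_of G x hx) (cb_of Gᶜ y hy)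
  rwa [card_univ, Fintype.card_fin] at this

theorem bupper_log {n : ℕ} (G : SimpleGraph (Fin n)) {t x y : ℕ} (hG : BoxDisj G t)
    (hx : G.CliqueFree (x + 1)) (hy : Gᶜ.CliqueFree (y + 1)) :
    n ≤ y * (2 * t + 1) ^ (Nat.log 2 x) := by
  obtain ⟨l, r, hred, hcov⟩ := hG
  have main : ∀ (lx x : ℕ) (S : Finset (Fin n)), Nat.log 2 x = lx → CB G S x → CB Gᶜ S y →
      S.card ≤ y * (2 * t + 1) ^ lx := by
    intro lx
    induction lx with
    | zero =>
      intro x S hl hSx hSy
      have hx1 : x < 2 := by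
        rcases Nat.log_eq_zero_iff.1 hl with h | h
        · exact h
        · omega
      simp only [pow_zero, mul_one]
      refine hSy S (Finset.Subset.refl _) ?_
      intro u hu v hv huv
      rw [SimpleGraph.compl_adj]
      refine ⟨huv, fun hadj => ?_⟩
      have := hSx {u, v} (by
        intro w hw
        simp only [mem_insert, mem_singleton] at hw
        rcases hw with rfl | rfl
        · exact hu
        · exact hv) (by
        rw [coe_pair]
        rw [SimpleGraph.isClique_iff, Set.pairwise_pair]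
        intro _
        exact ⟨hadj, hadj.symm⟩)
      rw [card_pair huv] at this
      omega
    | succ lx ih =>
      intro x S hl hSx hSy
      have hl2 : Nat.log 2 (x / 2) = lx := by
        rw [Nat.log_div_base, hl]; rfl
      have h1 := bstep G l r hred x y (y * (2 * t + 1) ^ lx)
        (fun U hU1 hU2 => ih (x / 2) U hl2 hU1 hU2) univ S hSx hSy
        (fun u _ v _ h => by obtain ⟨i, hi⟩ := hcov u v h; exact ⟨i, mem_univ _, hi⟩)
      rw [card_univ, Fintype.card_fin] at h1
      calc S.card ≤ y + t * (2 * (y * (2 * t + 1) ^ lx)) := h1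
        _ ≤ y * (2 * t + 1) ^ lx + t * (2 * (y * (2 * t + 1) ^ lx)) := by
          gcongr
          exact Nat.le_mul_of_pos_right _ (by positivity)
        _ = y * (2 * t + 1) ^ (lx + 1) := by ring
  have := main _ x univ rfl (cb_of G x hx) (cb_of Gᶜ y hy)
  rwa [card_univ, Fintype.card_fin] at this

/-- bicliques are a special case -/
lemma boxDisj_of_covered {V : Type*} (G : SimpleGraph V) (t : ℕ) (h : Covered G t) :
    BoxDisj G t := by
  classical
  obtain ⟨A, B, hAB, hcov⟩ := h
  have hdis : ∀ i v, v ∈ A i → v ∉ B i := fun i v h1 h2 => G.loopless.irrefl v (hAB i v h1 v h2)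
  refine ⟨fun v i => if v ∈ B i then 1 else 0, fun v i => if v ∈ A i then 0 else 1, ?_, ?_⟩
  · intro i u v huv
    by_cases hu : u ∈ A i
    · by_cases hv : v ∈ B i
      · exact hAB i u hu v hv
      · simp [hu, hv] at huv
    · by_cases hv : v ∈ B i
      · simp [hu, hv] at huv
      · simp [hu, hv] at huv
        linarith
  · intro u v huv
    obtain ⟨i, ⟨h1, h2⟩ | ⟨h1, h2⟩⟩ := hcov u v huv
    · exact ⟨i, Or.inl (by simp [h1, h2])⟩
    · exact ⟨i, Or.inr (by simp [h1, h2])⟩

end Pool.Agent.R70.BC
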