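import Mathlib
import Pool.Agent.R70.BC.Asym
import Pool.Agent.R70.BC.UpperAsym

set_option autoImplicit false

namespace Pool.Agent.R70.BC

/-- colourings with few complete bipartite graphs -/
theorem sharp : ∀ θ : ℝ, 0 < θ → θ ≤ 1 / 10 ^ 10 → ∃ K : ℕ, ∀ k : ℕ, K ≤ k →
    ∃ (n t : ℕ) (G : SimpleGraph (Fin n)), G.CliqueFree k ∧ Gᶜ.CliqueFree k ∧ Covered G t ∧
      Real.exp (θ * k) ≤ n ∧ (t:ℝ) ≤ (n:ℝ) ^ (4800 / Real.log (2 / θ)) := by
  intro θ hθ hθ1
  set y : ℝ := 2 / θ with hy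
  have hy1 : 2 * 10 ^ 10 ≤ y := by
    rw [hy, le_div_iff₀ hθ]
    calc 2 * 10 ^ 10 * θ ≤ 2 * 10 ^ 10 * (1 / 10 ^ 10) := by gcongr
      _ = 2 := by norm_num
  have hy0 : 0 < y := by linarith
  have hly : 20 ≤ Real.log y := by
    rw [Real.le_log_iff_exp_le hy0]
    refine le_trans ?_ hy1
    have h1 : Real.exp 20 = Real.exp 1 ^ 20 := by rw [← Real.exp_nat_mul]; norm_num
    rw [h1]
    have h2 := Real.exp_one_lt_d9
    calc Real.exp 1 ^ 20 ≤ 2.7182818286 ^ 20 := by gcongr
      _ ≤ 2 * 10 ^ 10 := by norm_num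
  have hly0 : 0 < Real.log y := by linarith
  set ε : ℝ := 4800 * θ / Real.log y with hε
  have hε0 : 0 < ε := by positivity
  have hε1 : ε ≤ 1 / 2 ^ 22 := by
    rw [hε, div_le_iff₀ hly0]
    nlinarith
  obtain ⟨K, hK⟩ := lower ε hε0 hε1
  refine ⟨K, fun k hk => ?_⟩
  obtain ⟨n, G, h1, h2, h3, h4⟩ := hK k hk
  have hk0 : (0:ℝ) ≤ k := Nat.cast_nonneg _
  have h2ε : 2 / ε = y * (Real.log y / 4800) := by
    rw [hε, hy]; field_simp
  have hlog : Real.log y / 2 ≤ Real.log (2 / ε) := by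
    rw [h2ε, Real.log_mul hy0.ne' (by positivity)]
    have e1 : Real.log (1 / 240) ≤ Real.log (Real.log y / 4800) := by
      apply Real.log_le_log (by norm_num)
      rw [div_le_div_iff₀ (by norm_num) (by norm_num)]
      linarith
    have e2 : Real.log (1 / 240) = - Real.log 240 := by rw [one_div, Real.log_inv]
    have e3 : Real.log 240 ≤ Real.log y / 2 := by
      have : Real.log ((240:ℝ) ^ 2) ≤ Real.log y := Real.log_le_log (by norm_num) (by linarith)
      rw [Real.log_pow] at this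
      push_cast at this
      linarith
    linarith
  have hnlog : θ * k ≤ Real.log n := by
    refine le_trans ?_ h4
    have e1 : θ ≤ 1 / 2400 * (ε * Real.log (2 / ε)) := by
      have e2 : ε * (Real.log y / 2) ≤ ε * Real.log (2 / ε) := by gcongr
      have e3 : ε * (Real.log y / 2) = 2400 * θ := by
        rw [hε]; field_simp; norm_num
      linarith
    gcongr
  have hn0 : (0:ℝ) < n := by
    rcases Nat.eq_zero_or_pos n with hn | hn
    · exfalso
      subst hn
      -- n = 0 is impossible: the bound is then `θ k ≤ 0`, i.e. `k = 0`, but no graph is `K_0`-free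
      have hk : k ≠ 0 := by
        rintro rfl
        exact h1 ∅ ⟨by simp, by simp⟩
      have : (0:ℝ) < k := by exact_mod_cast Nat.pos_of_ne_zero hk
      simp only [Nat.cast_zero, Real.log_zero] at hnlog
      nlinarith
    · exact_mod_cast hn
  refine ⟨n, _, G, h1, h2, h3, ?_, ?_⟩
  · rwa [← Real.le_log_iff_exp_le hn0]
  · calc ((⌊Real.exp (ε * k)⌋₊ : ℕ) : ℝ) ≤ Real.exp (ε * k) := Nat.floor_le (Real.exp_pos _).le
      _ = Real.exp (θ * k * (4800 / Real.log y)) := by
          congr 1; rw [hε]; ring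
      _ ≤ Real.exp (Real.log n * (4800 / Real.log y)) := by gcongr
      _ = (n:ℝ) ^ (4800 / Real.log y) := by rw [Real.rpow_def_of_pos hn0]

end Pool.Agent.R70.BC
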